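import Mathlib

/-!
# Two small lemmas
-/

set_option autoImplicit false

namespace Pool.Agent.Y12.CR

universe u

theorem const_of_pre {U : Type u} {ι : Sort*} {F : SimpleGraph U} (hF : F.Preconnected)
    (f : U → ι) (h : ∀ x y, F.Adj x y → f x = f y) (x y : U) : f x = f y := by
  obtain ⟨w⟩ := hF x y
  induction w with
  | nil => rfl
  | cons hadj _ ih => exact (h _ _ hadj).trans ih

theorem exists_color {N k r : ℕ} (hr : 1 ≤ r) (h : r * k ≤ N) (c : Fin N → Fin r) :
    ∃ i, k ≤ (Finset.univ.filter (fun a => c a = i)).card := by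
  have : Nonempty (Fin r) := ⟨⟨0, hr⟩⟩
  obtain ⟨i, -, hi⟩ := Finset.exists_le_card_fiber_of_mul_le_card_of_maps_to
    (s := (Finset.univ : Finset (Fin N))) (t := (Finset.univ : Finset (Fin r))) (f := c) (n := k)
    (fun _ _ => Finset.mem_univ _) Finset.univ_nonempty (by simpa using h)
  exact ⟨i, hi⟩

end Pool.Agent.Y12.CR
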