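import Pool.Agent.Y12.CR.Main

/-!
# Consequences: families, and the characterization for complete graphs
-/

set_option autoImplicit false

namespace Pool.Agent.Y12.CR

open Pool.Agent.Results.MP_fbe9f6_co.BipartiteRelated

universe u v w

theorem exists_fin {V : Type v} [Finite V] (G : SimpleGraph V) :
    ∃ (n : ℕ) (K : SimpleGraph (Fin n)), Nonempty (G ≃g K) := by
  refine ⟨Nat.card V, G.comap (Finite.equivFin V).symm, ⟨⟨Finite.equivFin V, ?_⟩⟩⟩
  intro a b
  change G.Adj ((Finite.equivFin V).symm (Finite.equivFin V a))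
    ((Finite.equivFin V).symm (Finite.equivFin V b)) ↔ G.Adj a b
  rw [Equiv.symm_apply_apply, Equiv.symm_apply_apply]

theorem free_mono {W : Type u} {U : Type v} {V : Type w} {k : ℕ} {H : SimpleGraph W}
    {F : SimpleGraph U} {G : SimpleGraph V} (φ : F ↪g G) {c : W → Fin k}
    (hc : IsFreeColoring H F c) : IsFreeColoring H G c :=
  fun i => ⟨fun f => (hc i).false (f.comp φ)⟩

/-- The disjoint union of a family of graphs. -/
def sig {ι : Type} {n : ι → ℕ} (K : ∀ i, SimpleGraph (Fin (n i))) :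
    SimpleGraph (Σ i, Fin (n i)) where
  Adj a b := ∃ h : a.1 = b.1, (K b.1).Adj (h ▸ a.2) b.2
  symm := ⟨by
    rintro ⟨i, a⟩ ⟨j, b⟩ ⟨h, hab⟩
    simp only at h
    subst h
    exact ⟨rfl, hab.symm⟩⟩
  loopless := ⟨by
    rintro ⟨i, a⟩ ⟨_, hab⟩
    exact hab.ne rfl⟩

theorem sig_adj {ι : Type} {n : ι → ℕ} (K : ∀ i, SimpleGraph (Fin (n i))) (i : ι)
    (a b : Fin (n i)) : (sig K).Adj ⟨i, a⟩ ⟨i, b⟩ ↔ (K i).Adj a b :=
  ⟨fun ⟨_, h⟩ => h, fun h => ⟨rfl, h⟩⟩

theorem sig_emb {U : Type u} {F : SimpleGraph U} (hF : NoCut F) {ι : Type} {n : ι → ℕ}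
    (K : ∀ i, SimpleGraph (Fin (n i))) (f : F ↪g sig K) :
    ∃ (i : ι) (g : F ↪g K i), ∀ a, f a = ⟨i, g a⟩ := by
  have key := const_of_pre hF.pre (fun a => (f a).1) (fun a b hab => (f.map_adj_iff.2 hab).1)
  obtain ⟨x, -, -⟩ := hF.edge
  have hall : ∀ a, ∃ b, f a = ⟨(f x).1, b⟩ := by
    intro a
    have h : (f a).1 = (f x).1 := key a x
    rw [← h]
    exact ⟨(f a).2, rfl⟩
  choose g hg using hall
  refine ⟨(f x).1, ⟨⟨g, ?_⟩, ?_⟩, hg⟩
  · intro a b hab
    apply f.injective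
    rw [hg a, hg b, hab]
  · intro a b
    change (K (f x).1).Adj (g a) (g b) ↔ F.Adj a b
    rw [← f.map_adj_iff, hg a, hg b]
    exact (sig_adj K _ _ _).symm

/-- One graph for a whole family. -/
theorem family {U : Type u} [Finite U] {F : SimpleGraph U} (hF : NoCut F) {ι : Type} [Finite ι]
    [Nonempty ι] (V : ι → Type v) [∀ i, Finite (V i)] (G : ∀ i, SimpleGraph (V i))
    (hFG : ∀ i, Nonempty (F ↪g G i)) (hG : ∀ i, ∃ c : V i → Fin 2, IsFreeColoring (G i) F c)
    {l : ℕ} (hl : 2 ≤ l) :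
    ∃ (W : Type) (_ : Finite W) (H : SimpleGraph W), FreeChromaticNumberEq H F l ∧
      ∀ i, FreeChromaticNumberEq H (G i) l := by
  choose n K φ using fun i => exists_fin (G i)
  replace φ : ∀ i, G i ≃g K i := fun i => (φ i).some
  replace hFG : ∀ i, F ↪g G i := fun i => (hFG i).some
  choose c hc using hG
  obtain ⟨i0⟩ := ‹Nonempty ι›
  obtain ⟨x, -, -⟩ := hF.edge
  let κ : Set (Σ i, Fin (n i)) := {x | c x.1 ((φ x.1).symm x.2) = 0}
  have hne : Nonempty (Σ i, Fin (n i)) := ⟨⟨i0, φ i0 (hFG i0 x)⟩⟩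
  have h1 : ∀ f : F ↪g sig K, ∃ a, f a ∉ κ := by
    intro f
    by_contra hcon
    push Not at hcon
    obtain ⟨i, g, hg⟩ := sig_emb hF K f
    refine (isFreeColoring_iff _ _ _).1 (hc i) 0 ((φ i).symm.toEmbedding.comp g) fun a => ?_
    have h := hcon a
    rw [hg a] at h
    exact h
  have h2 : ∀ f : F ↪g sig K, ∃ a, f a ∈ κ := by
    intro f
    by_contra hcon
    push Not at hcon
    obtain ⟨i, g, hg⟩ := sig_emb hF K f
    refine (isFreeColoring_iff _ _ _).1 (hc i) 1 ((φ i).symm.toEmbedding.comp g) fun a => ?_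
    have h := hcon a
    rw [hg a] at h
    have h' : c i ((φ i).symm (g a)) ≠ 0 := h
    exact Fin.eq_one_of_ne_zero _ h'
  obtain ⟨W, hW, H, ⟨p, hp⟩, hlow⟩ := core hF (sig K) κ h1 h2 hl
  have hGi : ∀ i, FreeChromaticNumberEq H (G i) l := by
    intro i
    refine ⟨⟨p, free_mono (hFG i) hp⟩, ?_⟩
    rintro k ⟨c', hc'⟩
    have e : K i ↪g sig K := ⟨⟨fun a => ⟨i, a⟩, fun a b h => by simpa using h⟩, sig_adj K i _ _⟩
    exact hlow k c' (free_mono (e.comp (φ i).toEmbedding) hc')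
  refine ⟨W, hW, H, ⟨⟨p, hp⟩, ?_⟩, hGi⟩
  rintro k ⟨c', hc'⟩
  exact (hGi i0).2 ⟨c', free_mono (hFG i0) hc'⟩

theorem symm' {U : Type u} {V : Type v} {F : SimpleGraph U} {G : SimpleGraph V}
    (h : ChromaticallyRelated F G) : ChromaticallyRelated G F := by
  intro l hl
  obtain ⟨W, hW, H, h1, h2⟩ := h l hl
  exact ⟨W, hW, H, h2, h1⟩

theorem two {U : Type u} {V : Type v} {F : SimpleGraph U} {G : SimpleGraph V}
    (h : ChromaticallyRelated F G) : ∃ c : V → Fin 2, IsFreeColoring G F c := by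
  obtain ⟨W, _, H, ⟨⟨c, hc⟩, -⟩, ⟨-, hlow⟩⟩ := h 2 le_rfl
  have hemb : Nonempty (G ↪g H) := by
    by_contra hcon
    have h1 : (1 : ℕ) ∈ {k : ℕ | ∃ c : W → Fin k, IsFreeColoring H G c} :=
      ⟨fun _ => 0, (isFreeColoring_iff _ _ _).2 fun _ f _ => hcon ⟨f⟩⟩
    have := hlow h1
    omega
  obtain ⟨f⟩ := hemb
  exact ⟨fun v => c (f v), (isFreeColoring_iff _ _ _).2 fun i g hg =>
    (isFreeColoring_iff _ _ _).1 hc i (f.comp g) hg⟩

theorem pair {U : Type u} [Finite U] {F : SimpleGraph U} (hF : NoCut F) {V : Type v} [Finite V]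
    (G : SimpleGraph V) (hFG : Nonempty (F ↪g G)) :
    ChromaticallyRelated F G ↔ ∃ c : V → Fin 2, IsFreeColoring G F c := by
  refine ⟨two, fun hG l hl => ?_⟩
  obtain ⟨W, hW, H, h1, h2⟩ := family hF (ι := Unit) (fun _ => V) (fun _ => G) (fun _ => hFG)
    (fun _ => hG) hl
  exact ⟨W, hW, H, h1, h2 ()⟩

theorem noCut_of_complete {U : Type u} [Nontrivial U] (F : SimpleGraph U)
    (h : ∀ x y, x ≠ y → F.Adj x y) : NoCut F := by
  refine ⟨?_, fun a b => ?_, fun z a b => ?_⟩
  · obtain ⟨x, y, hxy⟩ := exists_pair_ne U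
    exact ⟨x, y, h x y hxy⟩
  · by_cases hab : a = b
    · subst hab
      exact SimpleGraph.Reachable.refl _
    · exact SimpleGraph.Adj.reachable (h _ _ hab)
  · by_cases hab : a = b
    · subst hab
      exact SimpleGraph.Reachable.refl _
    · exact SimpleGraph.Adj.reachable (h _ _ fun h' => hab (Subtype.ext h'))

theorem cut {W : Type} [Finite W] (H : SimpleGraph W) {U : Type u} [Nontrivial U]
    (F : SimpleGraph U) (D : Set W) {r : ℕ} (hr : 1 ≤ r)
    (hD : ∃ c : W → Fin r, ∀ (i : Fin r) (f : F ↪g H), (∀ a, f a ∈ D) → ¬ ∀ a, c (f a) = i)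
    (hH : ∀ c : W → Fin r, ¬ IsFreeColoring H F c) :
    ∃ T : Set W, D ⊆ T ∧ FreeChromaticNumberEq (H.induce T) F (r + 1) := by
  classical
  let Good : Set W → Prop := fun T =>
    ∃ c : W → Fin r, ∀ (i : Fin r) (f : F ↪g H), (∀ a, f a ∈ T) → ¬ ∀ a, c (f a) = i
  have hfin : {T : Set W | D ⊆ T ∧ ¬ Good T}.Finite := Set.toFinite _
  have hne : {T : Set W | D ⊆ T ∧ ¬ Good T}.Nonempty := by
    refine ⟨Set.univ, Set.subset_univ _, ?_⟩
    rintro ⟨c, hc⟩
    exact hH c ((isFreeColoring_iff _ _ _).2 fun i f => hc i f fun _ => Set.mem_univ _)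
  obtain ⟨T, hT⟩ := hfin.exists_minimal hne
  have hDT : D ⊆ T := hT.prop.1
  have hbad : ¬ Good T := hT.prop.2
  have hss : D ⊂ T := by
    refine hDT.ssubset_of_ne ?_
    rintro rfl
    exact hbad hD
  obtain ⟨t, htT, htD⟩ := Set.exists_of_ssubset hss
  have hgood : Good (T \ {t}) := by
    by_contra hng
    have hle := hT.le_of_le (y := T \ {t})
      ⟨fun a ha => ⟨hDT ha, fun h => htD (h ▸ ha)⟩, hng⟩ Set.sdiff_subset
    exact (hle htT).2 rfl
  obtain ⟨c, hc⟩ := hgood
  refine ⟨T, hDT, ⟨fun w => if w.1 = t then Fin.last r else (c w.1).castSucc, ?_⟩, ?_⟩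
  · rw [isFreeColoring_iff]
    intro i f hf
    refine Fin.lastCases (motive := fun i => (∀ a, (if (f a).1 = t then Fin.last r
      else (c (f a).1).castSucc) = i) → False) ?_ ?_ i hf
    · intro hf
      have hall : ∀ a, (f a).1 = t := by
        intro a
        by_contra h
        have h' := hf a
        rw [if_neg h] at h'
        exact (Fin.castSucc_lt_last _).ne h'
      obtain ⟨x, y, hxy⟩ := exists_pair_ne U
      exact hxy (f.injective (Subtype.ext ((hall x).trans (hall y).symm)))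
    · intro i hf
      have hall : ∀ a, (f a).1 ≠ t ∧ c (f a).1 = i := by
        intro a
        have h' := hf a
        by_cases h : (f a).1 = t
        · rw [if_pos h] at h'
          exact ((Fin.castSucc_lt_last i).ne h'.symm).elim
        · rw [if_neg h] at h'
          exact ⟨h, Fin.castSucc_injective _ h'⟩
      exact hc i ((SimpleGraph.Embedding.induce _).comp f) (fun a => ⟨(f a).2, (hall a).1⟩)
        (fun a => (hall a).2)
  · rintro k ⟨c', hc'⟩
    by_contra hlt
    have hkr : k ≤ r := by omega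
    have hc'' := hc'.castLE hkr
    refine hbad ⟨fun w => if h : w ∈ T then Fin.castLE hkr (c' ⟨w, h⟩) else ⟨0, hr⟩, ?_⟩
    intro i f hfT hf
    refine (isFreeColoring_iff _ _ _).1 hc'' i ⟨⟨fun a => ⟨f a, hfT a⟩, ?_⟩, ?_⟩ fun a => ?_
    · intro a b hab
      exact f.injective (congrArg Subtype.val hab)
    · intro a b
      exact f.map_adj_iff
    · have h : (if h : f a ∈ T then Fin.castLE hkr (c' ⟨f a, h⟩) else ⟨0, hr⟩) = i := hf a
      rw [dif_pos (hfT a)] at h
      exact h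

theorem dich {V : Type v} (G : SimpleGraph V) : ∃ b : Prop, ∀ S : Set V, (∃ u, u ∈ S) →
    (∃ v, v ∉ S) → ∃ u ∈ S, ∃ v, v ∉ S ∧ ¬ (G.Adj u v ↔ b) := by
  by_contra hcon
  have hcon' : ∀ b : Prop, ∃ S : Set V, (∃ u, u ∈ S) ∧ (∃ v, v ∉ S) ∧
      ∀ u ∈ S, ∀ v, v ∉ S → (G.Adj u v ↔ b) := by
    intro b
    by_contra h
    refine hcon ⟨b, fun S h1 h2 => ?_⟩
    by_contra h3
    refine h ⟨S, h1, h2, fun u hu v hv => ?_⟩
    by_contra h4
    exact h3 ⟨u, hu, v, hv, h4⟩
  obtain ⟨S, ⟨u0, hu0⟩, ⟨v0, hv0⟩, hS⟩ := hcon' False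
  obtain ⟨T, ⟨t1, ht1⟩, ⟨t2, ht2⟩, hT⟩ := hcon' True
  have hiff : ∀ u ∈ S, ∀ v, v ∉ S → (u ∈ T ↔ v ∈ T) := by
    intro u hu v hv
    constructor
    · intro h
      by_contra h'
      exact (hS u hu v hv).1 ((hT u h v h').2 trivial)
    · intro h
      by_contra h'
      exact (hS u hu v hv).1 ((hT v h u h').2 trivial).symm
  have hall : ∀ x, x ∈ T ↔ u0 ∈ T := by
    intro x
    by_cases hx : x ∈ S
    · exact (hiff x hx v0 hv0).trans (hiff u0 hu0 v0 hv0).symm
    · exact (hiff u0 hu0 x hx).symm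
  exact ht2 ((hall t2).2 ((hall t1).1 ht1))

/-- `P` together with `K`; all pairs between the two are adjacent or none, according to `b`. -/
def host {X Y : Type} (P : SimpleGraph X) (K : SimpleGraph Y) (b : Prop) :
    SimpleGraph (X ⊕ Y) where
  Adj p q := match p, q with
    | Sum.inl x, Sum.inl y => P.Adj x y
    | Sum.inl _, Sum.inr _ => b
    | Sum.inr _, Sum.inl _ => b
    | Sum.inr i, Sum.inr j => K.Adj i j
  symm := ⟨by
    rintro (y | q) (y' | q') h
    · exact h.symm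
    · exact h
    · exact h
    · exact h.symm⟩
  loopless := ⟨by
    rintro (y | q) h
    · exact h.ne rfl
    · exact h.ne rfl⟩

/-- Two graphs neither of which contains the other. -/
theorem incomparable {U : Type u} [Nontrivial U] (F : SimpleGraph U) {V : Type v}
    [Nontrivial V] (G : SimpleGraph V)
    (h1 : ∀ r : ℕ, 1 ≤ r → ∃ (X : Type) (_ : Finite X) (P : SimpleGraph X),
      IsEmpty (F ↪g P) ∧ FreeChromaticNumberEq P G (r + 1))
    (h2 : ∀ r : ℕ, 1 ≤ r → ∃ (Y : Type) (_ : Finite Y) (K : SimpleGraph Y),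
      IsEmpty (G ↪g K) ∧ ∀ c : Y → Fin r, ¬ IsFreeColoring K F c) :
    ChromaticallyRelated F G := by
  classical
  intro l hl
  obtain ⟨r, rfl⟩ : ∃ r, l = r + 1 := ⟨l - 1, by omega⟩
  have hr : 1 ≤ r := by omega
  obtain ⟨X, _, P, hP, ⟨cX, hcX⟩, hPlow⟩ := h1 r hr
  obtain ⟨Y, _, K, hK, hKF⟩ := h2 r hr
  obtain ⟨b, hb⟩ := dich G
  obtain ⟨T', hDT', hT'⟩ := cut (host P K b) F (Set.range Sum.inl) hr
    ⟨fun _ => ⟨0, hr⟩, by
      intro i f hf _
      choose g hg using hf
      refine hP.false ⟨⟨g, ?_⟩, ?_⟩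
      · intro a b hab
        apply f.injective
        rw [← hg a, ← hg b, hab]
      · intro a b
        change P.Adj (g a) (g b) ↔ F.Adj a b
        rw [← f.map_adj_iff, ← hg a, ← hg b]
        exact Iff.rfl⟩
    (by
      intro c hc
      refine hKF (fun y => c (Sum.inr y)) ?_
      rw [isFreeColoring_iff]
      intro i f hf
      refine (isFreeColoring_iff _ _ _).1 hc i ⟨⟨fun a => Sum.inr (f a), ?_⟩, ?_⟩ hf
      · intro a b hab
        exact f.injective (Sum.inr_injective hab)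
      · intro a b
        exact f.map_adj_iff)
  refine ⟨T', inferInstance, (host P K b).induce T', hT', ⟨?_, ?_⟩⟩
  · refine ⟨fun w => Sum.elim cX (fun _ => 0) w.1, ?_⟩
    rw [isFreeColoring_iff]
    intro i f hf
    by_cases hS1 : ∃ u, u ∈ {v | ∃ q, (f v).1 = Sum.inr q}
    · by_cases hS2 : ∃ v, v ∉ {v | ∃ q, (f v).1 = Sum.inr q}
      · obtain ⟨u, ⟨q, hq⟩, v, hv, huv⟩ := hb _ hS1 hS2
        apply huv
        have h1 : (host P K b).Adj (f u).1 (f v).1 ↔ G.Adj u v := f.map_adj_iff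
        rw [← h1]
        rcases hfv : (f v).1 with z | q'
        · rw [hq]
          exact Iff.rfl
        · exact (hv ⟨q', hfv⟩).elim
      · have hall : ∀ v, ∃ q, (f v).1 = Sum.inr q := by
          intro v
          by_contra h
          exact hS2 ⟨v, h⟩
        choose g hg using hall
        refine hK.false ⟨⟨g, ?_⟩, ?_⟩
        · intro a b hab
          apply f.injective
          apply Subtype.ext
          rw [hg a, hg b, hab]
        · intro a b'
          change K.Adj (g a) (g b') ↔ G.Adj a b'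
          rw [← f.map_adj_iff]
          change _ ↔ (host P K b).Adj (f a).1 (f b').1
          rw [hg a, hg b']
          exact Iff.rfl
    · have hall : ∀ v, ∃ z, (f v).1 = Sum.inl z ∧ cX z = i := by
        intro v
        have h := hf v
        rcases hfv : (f v).1 with z | q'
        · refine ⟨z, rfl, ?_⟩
          rw [hfv] at h
          exact h
        · exact (hS1 ⟨v, q', hfv⟩).elim
      choose g hg hgi using hall
      refine (isFreeColoring_iff _ _ _).1 hcX i ⟨⟨g, ?_⟩, ?_⟩ hgi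
      · intro a b hab
        apply f.injective
        apply Subtype.ext
        rw [hg a, hg b, hab]
      · intro a b'
        change P.Adj (g a) (g b') ↔ G.Adj a b'
        rw [← f.map_adj_iff]
        change _ ↔ (host P K b).Adj (f a).1 (f b').1
        rw [hg a, hg b']
        exact Iff.rfl
  · rintro k ⟨c, hc⟩
    refine hPlow ⟨fun z => c ⟨Sum.inl z, hDT' ⟨z, rfl⟩⟩, ?_⟩
    rw [isFreeColoring_iff]
    intro i f hf
    refine (isFreeColoring_iff _ _ _).1 hc i
      ⟨⟨fun a => ⟨Sum.inl (f a), hDT' ⟨f a, rfl⟩⟩, ?_⟩, ?_⟩ hf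
    · intro a b hab
      exact f.injective (Sum.inl_injective (congrArg Subtype.val hab))
    · intro a b
      exact f.map_adj_iff

theorem exists_exact {U : Type u} [Finite U] {F : SimpleGraph U} (hF : NoCut F) {V : Type v}
    [Finite V] [Nontrivial V] (G : SimpleGraph V) (hFG : IsEmpty (F ↪g G)) {r : ℕ} (hr : 1 ≤ r) :
    ∃ (X : Type) (_ : Finite X) (P : SimpleGraph X), IsEmpty (F ↪g P) ∧
      FreeChromaticNumberEq P G (r + 1) := by
  obtain ⟨m, K, ⟨φ⟩⟩ := exists_fin G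
  obtain ⟨Q, _, R, hR, hRc⟩ := folkman hF K ⟨fun f => hFG.false (φ.symm.toEmbedding.comp f)⟩ hr
  obtain ⟨x, -, -⟩ := exists_pair_ne V
  obtain ⟨T, -, hT⟩ := cut R G ∅ hr
    ⟨fun _ => ⟨0, hr⟩, fun i f hf => absurd (hf x) (Set.notMem_empty _)⟩ (by
      intro c hc
      obtain ⟨i, e, he⟩ := hRc c
      exact (isFreeColoring_iff _ _ _).1 hc i (e.comp φ.toEmbedding) (fun a => he _))
  exact ⟨T, inferInstance, R.induce T,
    ⟨fun f => hR.false ((SimpleGraph.Embedding.induce T).comp f)⟩, hT⟩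

/-- Characterization of the graphs which are chromatically related to a complete graph. -/
theorem complete_iff {U : Type u} [Finite U] [Nontrivial U] {V : Type v} [Finite V] [Nontrivial V]
    (G : SimpleGraph V) : ChromaticallyRelated (⊤ : SimpleGraph U) G ↔
      (∃ c : V → Fin 2, IsFreeColoring G (⊤ : SimpleGraph U) c) ∧
      (∃ c : U → Fin 2, IsFreeColoring (⊤ : SimpleGraph U) G c) := by
  classical
  have : Fintype U := Fintype.ofFinite U
  have : Fintype V := Fintype.ofFinite V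
  have hKn : NoCut (⊤ : SimpleGraph U) :=
    noCut_of_complete _ fun a b hab => (SimpleGraph.top_adj a b).2 hab
  refine ⟨fun h => ⟨two h, two (symm' h)⟩, ?_⟩
  rintro ⟨h1, h2⟩
  by_cases hK : Nonempty ((⊤ : SimpleGraph U) ↪g G)
  · exact (pair hKn G hK).2 h1
  by_cases hc : ∀ x y, x ≠ y → G.Adj x y
  · rcases le_total (Fintype.card U) (Fintype.card V) with hle | hle
    · exfalso
      obtain ⟨ψ⟩ := Function.Embedding.nonempty_of_card_le hle
      refine hK ⟨⟨ψ, ?_⟩⟩
      intro a b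
      rw [SimpleGraph.top_adj]
      exact ⟨fun h h' => h.ne (by rw [h']), fun h => hc _ _ fun h' => h (ψ.injective h')⟩
    · obtain ⟨ψ⟩ := Function.Embedding.nonempty_of_card_le hle
      refine symm' ((pair (noCut_of_complete G hc) _ ⟨⟨ψ, ?_⟩⟩).2 h2)
      intro a b
      rw [SimpleGraph.top_adj]
      exact ⟨fun h => hc _ _ fun h' => h (by rw [h']), fun h h' => h.ne (ψ.injective h')⟩
  · push Not at hc
    obtain ⟨x, y, hxy, hadj⟩ := hc
    refine incomparable _ G
      (fun r hr => exists_exact hKn G (not_nonempty_iff.1 hK) hr) fun r hr => ?_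
    refine ⟨Fin (r * Fintype.card U), inferInstance, ⊤, ⟨fun f => ?_⟩, fun c hc => ?_⟩
    · apply hadj
      rw [← f.map_adj_iff, SimpleGraph.top_adj]
      exact fun h => hxy (f.injective h)
    · obtain ⟨i, hi⟩ := exists_color hr le_rfl c
      have hcard : Fintype.card U ≤ Fintype.card {a : Fin (r * Fintype.card U) // c a = i} :=
        hi.trans_eq (Fintype.card_subtype (fun a : Fin (r * Fintype.card U) => c a = i)).symm
      obtain ⟨ψ⟩ := Function.Embedding.nonempty_of_card_le hcard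
      refine (isFreeColoring_iff _ _ _).1 hc i ⟨ψ.trans (Function.Embedding.subtype _), ?_⟩
        (fun a => (ψ a).2)
      intro a b
      change (⊤ : SimpleGraph (Fin (r * Fintype.card U))).Adj (ψ a).1 (ψ b).1 ↔
        (⊤ : SimpleGraph U).Adj a b
      rw [SimpleGraph.top_adj, SimpleGraph.top_adj]
      exact not_congr ⟨fun h => ψ.injective (Subtype.ext h), fun h => by rw [h]⟩

/-- The case of `K₂`. -/
theorem K2_iff {V : Type v} [Finite V] [Nontrivial V] (G : SimpleGraph V) :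
    ChromaticallyRelated G K2 ↔ G.IsBipartite := by
  have h : ChromaticallyRelated G K2 ↔ ChromaticallyRelated K2 G := ⟨symm', symm'⟩
  rw [h, complete_iff G]
  constructor
  · rintro ⟨⟨c, hc⟩, -⟩
    exact ⟨SimpleGraph.Coloring.mk c fun {a b} hab => (isFreeColoring_K2_iff G c).1 hc a b hab⟩
  · rintro ⟨κ⟩
    refine ⟨⟨fun a => κ a, (isFreeColoring_K2_iff G _).2 fun a b hab => κ.valid hab⟩,
      id, (isFreeColoring_iff _ _ _).2 fun i f hf => ?_⟩
    obtain ⟨x, y, hxy⟩ := exists_pair_ne V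
    exact hxy (f.injective ((hf x).trans (hf y).symm))

end Pool.Agent.Y12.CR
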