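import Pool.Agent.Y12.CR.Hyp

/-!
# Vertex Folkman theorem for forbidden graphs without cut vertex
-/

set_option autoImplicit false

namespace Pool.Agent.Y12.CR

universe u

/-- A connected graph with an edge and without cut vertex: a graph with two vertices and one edge
or a 2-connected graph. -/
structure NoCut {U : Type u} (F : SimpleGraph U) : Prop where
  edge : ∃ x y, F.Adj x y
  pre : F.Preconnected
  cut : ∀ z : U, (F.induce {z}ᶜ).Preconnected

theorem NoCut.nbr {U : Type u} {F : SimpleGraph U} (hF : NoCut F) (a : U) : ∃ b, F.Adj a b := by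
  by_contra hcon
  push Not at hcon
  obtain ⟨x, y, hxy⟩ := hF.edge
  have key := const_of_pre hF.pre (fun z => z = a) (fun z w hzw => by
    refine propext ⟨?_, ?_⟩
    · rintro rfl; exact (hcon _ hzw).elim
    · rintro rfl; exact (hcon _ hzw.symm).elim)
  have hx : x = a := (key x a).mpr rfl
  have hy : y = a := (key y a).mpr rfl
  exact hxy.ne (hx.trans hy.symm)

/-- A copy of `A` on every edge of the hypergraph. -/
def blow {V W E : Type} (A : SimpleGraph V) (e : E → (V ↪ W)) : SimpleGraph W where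
  Adj u v := ∃ a x y, e a x = u ∧ e a y = v ∧ A.Adj x y
  symm := ⟨by
    rintro u v ⟨a, x, y, hx, hy, h⟩
    exact ⟨a, y, x, hy, hx, h.symm⟩⟩
  loopless := ⟨by
    rintro u ⟨a, x, y, hx, hy, h⟩
    exact h.ne ((e a).injective (hx.trans hy.symm))⟩

theorem blow_free {U : Type u} [Finite U] {F : SimpleGraph U} (hF : NoCut F) {V W E : Type}
    [Finite E] (A : SimpleGraph V) (e : E → (V ↪ W)) {g : ℕ}
    (hg : Nat.card U * Nat.card U ≤ g) (he : Sparse g e) (hA : IsEmpty (F ↪g A)) :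
    IsEmpty (F ↪g blow A e) := by
  classical
  have : Fintype U := Fintype.ofFinite U
  refine ⟨fun f => ?_⟩
  let Cov : Finset E → Prop := fun S => ∀ u v, F.Adj u v →
    ∃ a ∈ S, ∃ x y, e a x = f u ∧ e a y = f v ∧ A.Adj x y
  have hh : ∀ p : U × U, F.Adj p.1 p.2 → ∃ a x y, e a x = f p.1 ∧ e a y = f p.2 ∧ A.Adj x y :=
    fun p hp => f.map_adj_iff.2 hp
  obtain ⟨x0, y0, h0⟩ := hF.edge
  obtain ⟨a0, -⟩ := hh (x0, y0) h0
  let h : U × U → E := fun p => if hp : F.Adj p.1 p.2 then (hh p hp).choose else a0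
  have hcov : Cov (Finset.univ.image h) := by
    intro u v huv
    refine ⟨h (u, v), Finset.mem_image_of_mem _ (Finset.mem_univ _), ?_⟩
    have : h (u, v) = (hh (u, v) huv).choose := dif_pos huv
    rw [this]
    exact (hh (u, v) huv).choose_spec
  have hcard0 : (Finset.univ.image h).card ≤ g := by
    refine Finset.card_image_le.trans ?_
    rw [Finset.card_univ, Fintype.card_prod, ← Nat.card_eq_fintype_card]
    exact hg
  obtain ⟨S, hS⟩ := (Set.toFinite {S : Finset E | S ⊆ Finset.univ.image h ∧ Cov S}).exists_minimal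
    ⟨_, subset_rfl, hcov⟩
  have hSsub : S ⊆ Finset.univ.image h := hS.prop.1
  have hScov : Cov S := hS.prop.2
  have hScard : S.card ≤ g := (Finset.card_le_card hSsub).trans hcard0
  have hSmin : ∀ a ∈ S, ∃ u v, F.Adj u v ∧ (∃ x y, e a x = f u ∧ e a y = f v ∧ A.Adj x y) := by
    intro a ha
    by_contra hcon
    push Not at hcon
    have hc : Cov (S.erase a) := by
      intro u v huv
      obtain ⟨b, hb, x, y, h1, h2, h3⟩ := hScov u v huv
      refine ⟨b, Finset.mem_erase.2 ⟨?_, hb⟩, x, y, h1, h2, h3⟩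
      rintro rfl
      exact hcon u v huv x y h1 h2 h3
    have := hS.le_of_le (y := S.erase a) ⟨(Finset.erase_subset _ _).trans hSsub, hc⟩
      (Finset.erase_subset _ _)
    exact Finset.notMem_erase a S (this ha)
  by_cases h2 : 2 ≤ S.card
  · obtain ⟨a, ha, b, hb, hab, hla, -⟩ := he S h2 hScard
    have hed : ∀ p q, F.Adj p q → (f p ∈ Set.range (e a) ∧ f q ∈ Set.range (e a)) ∨
        ((∃ b ∈ S, b ≠ a ∧ f p ∈ Set.range (e b)) ∧ (∃ b ∈ S, b ≠ a ∧ f q ∈ Set.range (e b))) := by
      intro p q hpq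
      obtain ⟨a1, ha1, x, y, h3, h4, -⟩ := hScov p q hpq
      by_cases h5 : a1 = a
      · subst h5
        exact Or.inl ⟨⟨x, h3⟩, ⟨y, h4⟩⟩
      · exact Or.inr ⟨⟨a1, ha1, h5, ⟨x, h3⟩⟩, ⟨a1, ha1, h5, ⟨y, h4⟩⟩⟩
    have hleaf : ∀ p q, f p ∈ Set.range (e a) → f q ∈ Set.range (e a) →
        (∃ b ∈ S, b ≠ a ∧ f p ∈ Set.range (e b)) → (∃ b ∈ S, b ≠ a ∧ f q ∈ Set.range (e b)) →
        p = q := fun p q h3 h4 h5 h6 => f.injective (hla _ _ h3 h4 h5 h6)
    obtain ⟨u, v, huv, x, y, hx, hy, -⟩ := hSmin a ha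
    obtain ⟨u', v', huv', x', y', hx', hy', -⟩ := hSmin b hb
    have hw : ∃ w, f w ∈ Set.range (e a) ∧ ¬ ∃ b ∈ S, b ≠ a ∧ f w ∈ Set.range (e b) := by
      by_contra hcon
      push Not at hcon
      exact huv.ne (hleaf u v ⟨x, hx⟩ ⟨y, hy⟩ (hcon u ⟨x, hx⟩) (hcon v ⟨y, hy⟩))
    have hw' : ∃ w, f w ∉ Set.range (e a) := by
      by_contra hcon
      push Not at hcon
      exact huv'.ne (hleaf u' v' (hcon u') (hcon v') ⟨b, hb, hab.symm, ⟨x', hx'⟩⟩
        ⟨b, hb, hab.symm, ⟨y', hy'⟩⟩)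
    obtain ⟨w, hwa, hwo⟩ := hw
    obtain ⟨w', hwa'⟩ := hw'
    by_cases hz : ∃ z, f z ∈ Set.range (e a) ∧ ∃ b ∈ S, b ≠ a ∧ f z ∈ Set.range (e b)
    · obtain ⟨z, hz1, hz2⟩ := hz
      have hwz : w ≠ z := by
        rintro rfl
        exact hwo hz2
      have hwz' : w' ≠ z := by
        rintro rfl
        exact hwa' hz1
      have key := const_of_pre (hF.cut z)
        (fun p : ({z}ᶜ : Set U) => f p.1 ∈ Set.range (e a)) (by
          rintro ⟨p, hp⟩ ⟨q, hq⟩ hpq
          have hpq' : F.Adj p q := hpq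
          refine propext ?_
          rcases hed p q hpq' with ⟨h3, h4⟩ | ⟨h3, h4⟩
          · exact ⟨fun _ => h4, fun _ => h3⟩
          · exact ⟨fun h5 => (hp (hleaf p z h5 hz1 h3 hz2)).elim,
              fun h5 => (hq (hleaf q z h5 hz1 h4 hz2)).elim⟩)
      exact hwa' ((iff_of_eq (key ⟨w, hwz⟩ ⟨w', hwz'⟩)).1 hwa)
    · have key := const_of_pre hF.pre (fun p => f p ∈ Set.range (e a)) (by
        intro p q hpq
        refine propext ?_
        rcases hed p q hpq with ⟨h3, h4⟩ | ⟨h3, h4⟩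
        · exact ⟨fun _ => h4, fun _ => h3⟩
        · exact ⟨fun h5 => (hz ⟨p, h5, h3⟩).elim, fun h5 => (hz ⟨q, h5, h4⟩).elim⟩)
      exact hwa' ((iff_of_eq (key w w')).1 hwa)
  · obtain ⟨a, ha, -⟩ := hScov x0 y0 h0
    have hall : ∀ b ∈ S, b = a := fun b hb => Finset.card_le_one.1 (by omega) b hb a ha
    have hcov' : ∀ u v, F.Adj u v → ∃ x y, e a x = f u ∧ e a y = f v ∧ A.Adj x y := by
      intro u v huv
      obtain ⟨b, hb, x, y, h3⟩ := hScov u v huv
      rw [hall b hb] at h3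
      exact ⟨x, y, h3⟩
    have hrange : ∀ u, ∃ x, e a x = f u := by
      intro u
      obtain ⟨v, huv⟩ := hF.nbr u
      obtain ⟨x, -, hx, -⟩ := hcov' u v huv
      exact ⟨x, hx⟩
    choose k hk using hrange
    refine hA.false ⟨⟨k, ?_⟩, ?_⟩
    · intro p q hpq
      apply f.injective
      rw [← hk p, ← hk q, hpq]
    · intro p q
      change A.Adj (k p) (k q) ↔ F.Adj p q
      constructor
      · intro h3
        exact f.map_adj_iff.1 ⟨a, k p, k q, hk p, hk q, h3⟩
      · intro h3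
        obtain ⟨x, y, hx, hy, h4⟩ := hcov' p q h3
        have h5 : x = k p := (e a).injective (hx.trans (hk p).symm)
        have h6 : y = k q := (e a).injective (hy.trans (hk q).symm)
        rw [← h5, ← h6]
        exact h4

/-- **Vertex Folkman theorem** (Nesetril and Rodl): if `F` is connected without cut vertex and the
finite graph `A` has no induced copy of `F` then some finite graph `R` has no induced copy of `F`,
but in every colouring of its vertices with `r` colours a monochromatic induced copy of `A`. -/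
theorem folkman {U : Type u} [Finite U] {F : SimpleGraph U} (hF : NoCut F) {V : Type} [Finite V]
    (A : SimpleGraph V) (hA : IsEmpty (F ↪g A)) {r : ℕ} (hr : 1 ≤ r) :
    ∃ (Q : Type) (_ : Finite Q) (R : SimpleGraph Q), IsEmpty (F ↪g R) ∧
      ∀ c : Q → Fin r, ∃ (i : Fin r) (e : A ↪g R), ∀ a, c (e a) = i := by
  classical
  obtain ⟨W, E, _, _, e, he, hc⟩ := hyp hr (Nat.card U * Nat.card U + 2) V
  refine ⟨W, inferInstance, blow A e, blow_free hF A e (by omega) he hA, fun c => ?_⟩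
  obtain ⟨i, a, ha⟩ := hc c
  refine ⟨i, ⟨e a, ?_⟩, ha⟩
  intro x y
  constructor
  · rintro ⟨a', x', y', h1, h2, h3⟩
    by_cases haa : a' = a
    · subst haa
      rw [← (e a').injective h1, ← (e a').injective h2]
      exact h3
    · exfalso
      obtain ⟨p, hp, q, hq, hpq, hlp, hlq⟩ := he {a, a'} (by rw [Finset.card_pair (Ne.symm haa)])
        (by rw [Finset.card_pair (Ne.symm haa)]; omega)
      have hla : Leaf e {a, a'} a := by
        rcases Finset.mem_insert.1 hp with rfl | hp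
        · exact hlp
        · rcases Finset.mem_insert.1 hq with rfl | hq
          · exact hlq
          · exact (hpq ((Finset.mem_singleton.1 hp).trans (Finset.mem_singleton.1 hq).symm)).elim
      have h4 := hla (e a x) (e a y) ⟨x, rfl⟩ ⟨y, rfl⟩ ⟨a', by simp, haa, ⟨x', h1⟩⟩
        ⟨a', by simp, haa, ⟨y', h2⟩⟩
      rw [← h1, ← h2] at h4
      exact h3.ne ((e a').injective h4)
  · intro h
    exact ⟨a, x, y, rfl, rfl, h⟩

end Pool.Agent.Y12.CR
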