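import Pool.Agent.Y12.CR.Base

/-!
# Sparse Ramsey hypergraphs

For every `g`, `r` and every finite `C` there is a finite hypergraph, whose edges are copies of
`C`, such that every colouring of its vertices with `r` colours has a monochromatic edge, while
every family of at least two and at most `g` edges has two different members each of which meets
the union of the others in at most one vertex. Partite construction.
-/

set_option autoImplicit false

namespace Pool.Agent.Y12.CR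

/-- The edge `a` meets the union of the other members of `S` in at most one vertex. -/
def Leaf {W E C : Type} (e : E → (C ↪ W)) (S : Finset E) (a : E) : Prop :=
  ∀ v v' : W, v ∈ Set.range (e a) → v' ∈ Set.range (e a) →
    (∃ b ∈ S, b ≠ a ∧ v ∈ Set.range (e b)) → (∃ b ∈ S, b ≠ a ∧ v' ∈ Set.range (e b)) → v = v'

/-- Every family of at least two and at most `g` edges has two leaves. -/
def Sparse {W E C : Type} (g : ℕ) (e : E → (C ↪ W)) : Prop :=
  ∀ S : Finset E, 2 ≤ S.card → S.card ≤ g → ∃ a ∈ S, ∃ b ∈ S, a ≠ b ∧ Leaf e S a ∧ Leaf e S b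

section Amal

variable {C X W E Y D : Type} (e : E → (C ↪ W)) (π : W → X) (x : X)
  (t : D → ({w // π w = x} ↪ Y))

open Classical in
/-- The copy with index `d`. -/
noncomputable def cpm (d : D) (w : W) : Y ⊕ (D × {w // π w ≠ x}) :=
  if h : π w = x then Sum.inl (t d ⟨w, h⟩) else Sum.inr (d, ⟨w, h⟩)

theorem cpm_pos {d : D} {w : W} (h : π w = x) : cpm π x t d w = Sum.inl (t d ⟨w, h⟩) := by
  simp [cpm, h]

theorem cpm_neg {d : D} {w : W} (h : π w ≠ x) : cpm π x t d w = Sum.inr (d, ⟨w, h⟩) := by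
  simp [cpm, h]

theorem cpm_inj (d : D) : Function.Injective (cpm π x t d) := by
  intro a b hab
  by_cases ha : π a = x <;> by_cases hb : π b = x
  · rw [cpm_pos π x t ha, cpm_pos π x t hb] at hab
    have := (t d).injective (Sum.inl_injective hab)
    exact congrArg Subtype.val this
  · rw [cpm_pos π x t ha, cpm_neg π x t hb] at hab
    simp at hab
  · rw [cpm_neg π x t ha, cpm_pos π x t hb] at hab
    simp at hab
  · rw [cpm_neg π x t ha, cpm_neg π x t hb] at hab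
    have := Sum.inr_injective hab
    rw [Prod.mk.injEq] at this
    exact congrArg Subtype.val this.2

theorem cpm_ext {d d' : D} (hd : d ≠ d') {w w' : W} (h : cpm π x t d w = cpm π x t d' w') :
    ∃ (hw : π w = x) (hw' : π w' = x), t d ⟨w, hw⟩ = t d' ⟨w', hw'⟩ := by
  by_cases ha : π w = x <;> by_cases hb : π w' = x
  · rw [cpm_pos π x t ha, cpm_pos π x t hb] at h
    exact ⟨ha, hb, Sum.inl_injective h⟩
  · rw [cpm_pos π x t ha, cpm_neg π x t hb] at h
    simp at h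
  · rw [cpm_neg π x t ha, cpm_pos π x t hb] at h
    simp at h
  · rw [cpm_neg π x t ha, cpm_neg π x t hb] at h
    have := Sum.inr_injective h
    rw [Prod.mk.injEq] at this
    exact (hd this.1).elim

/-- The edges of the amalgam. -/
noncomputable def ee (p : D × E) : C ↪ (Y ⊕ (D × {w // π w ≠ x})) :=
  (e p.2).trans ⟨cpm π x t p.1, cpm_inj π x t p.1⟩

theorem ee_apply (p : D × E) (z : C) : ee e π x t p z = cpm π x t p.1 (e p.2 z) := rfl

theorem leaf_alone (hπ : ∀ a, Function.Injective (fun z => π (e a z))) {S : Finset (D × E)}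
    {p : D × E} (hp : ∀ q ∈ S, q.1 = p.1 → q = p) : Leaf (ee e π x t) S p := by
  rintro v v' ⟨z, rfl⟩ ⟨z', rfl⟩ ⟨b, hb, hbp, ⟨y, hy⟩⟩ ⟨b', hb', hbp', ⟨y', hy'⟩⟩
  have h1 : p.1 ≠ b.1 := fun h => hbp (hp b hb h.symm)
  have h2 : p.1 ≠ b'.1 := fun h => hbp' (hp b' hb' h.symm)
  obtain ⟨h3, -, -⟩ := cpm_ext π x t h1 hy.symm
  obtain ⟨h4, -, -⟩ := cpm_ext π x t h2 hy'.symm
  have : z = z' := hπ p.2 (h3.trans h4.symm)
  rw [this]

theorem ee_sparse {g : ℕ} (hπ : ∀ a, Function.Injective (fun z => π (e a z)))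
    (he : Sparse (g + 1) e) (ht : Sparse g t) : Sparse (g + 1) (ee e π x t) := by
  classical
  intro S h2 hg
  by_cases hinj : ∀ p ∈ S, ∀ q ∈ S, q.1 = p.1 → q = p
  · obtain ⟨p, hp, q, hq, hpq⟩ := Finset.one_lt_card.1 h2
    exact ⟨p, hp, q, hq, hpq, leaf_alone e π x t hπ (hinj p hp), leaf_alone e π x t hπ (hinj q hq)⟩
  let Sd : D → Finset E := fun d => (S.filter (fun p => p.1 = d)).image Prod.snd
  have hSd : ∀ d a, a ∈ Sd d ↔ (d, a) ∈ S := by
    intro d a
    simp only [Sd, Finset.mem_image, Finset.mem_filter]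
    constructor
    · rintro ⟨⟨d', a'⟩, ⟨h, h'⟩, h''⟩
      simp only at h' h''
      subst h' h''
      exact h
    · intro h
      exact ⟨(d, a), ⟨h, rfl⟩, rfl⟩
  have hSdcard : ∀ d, (Sd d).card ≤ S.card := fun d =>
    Finset.card_image_le.trans (Finset.card_filter_le _ _)
  let T : Finset D := S.image Prod.fst
  have hTmem : ∀ p ∈ S, p.1 ∈ T := fun p hp => Finset.mem_image_of_mem _ hp
  have hTlt : T.card < S.card := by
    refine lt_of_le_of_ne Finset.card_image_le fun h => hinj fun p hp q hq hpq => ?_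
    exact Finset.card_image_iff.1 h hq hp hpq
  have hsplit : ∀ d a v, (∃ b ∈ S, b ≠ (d, a) ∧ v ∈ Set.range (ee e π x t b)) →
      (∃ b, (d, b) ∈ S ∧ b ≠ a ∧ v ∈ Set.range (ee e π x t (d, b))) ∨
      (∃ p ∈ S, p.1 ≠ d ∧ v ∈ Set.range (ee e π x t p)) := by
    rintro d a v ⟨⟨d', b⟩, hb, hne, hv⟩
    by_cases hd : d' = d
    · subst hd
      exact Or.inl ⟨b, hb, fun h => hne (by rw [h]), hv⟩
    · exact Or.inr ⟨(d', b), hb, hd, hv⟩
  have hint : ∀ d a, Leaf e (Sd d) a → ∀ v v', v ∈ Set.range (ee e π x t (d, a)) →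
      v' ∈ Set.range (ee e π x t (d, a)) →
      (∃ b, (d, b) ∈ S ∧ b ≠ a ∧ v ∈ Set.range (ee e π x t (d, b))) →
      (∃ b, (d, b) ∈ S ∧ b ≠ a ∧ v' ∈ Set.range (ee e π x t (d, b))) → v = v' := by
    rintro d a hleaf v v' ⟨z, rfl⟩ ⟨z', rfl⟩ ⟨b, hb, hba, ⟨y, hy⟩⟩ ⟨b', hb', hba', ⟨y', hy'⟩⟩
    have h1 : e b y = e a z := cpm_inj π x t d hy
    have h1' : e b' y' = e a z' := cpm_inj π x t d hy'
    have h3 := hleaf (e a z) (e a z') ⟨z, rfl⟩ ⟨z', rfl⟩ ⟨b, (hSd d b).2 hb, hba, ⟨y, h1⟩⟩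
      ⟨b', (hSd d b').2 hb', hba', ⟨y', h1'⟩⟩
    change cpm π x t d (e a z) = cpm π x t d (e a z')
    rw [h3]
  have hext : ∀ d, Leaf t T d → ∀ a a' v v', v ∈ Set.range (ee e π x t (d, a)) →
      v' ∈ Set.range (ee e π x t (d, a')) →
      (∃ p ∈ S, p.1 ≠ d ∧ v ∈ Set.range (ee e π x t p)) →
      (∃ p ∈ S, p.1 ≠ d ∧ v' ∈ Set.range (ee e π x t p)) → v = v' := by
    rintro d hleaf a a' v v' ⟨z, rfl⟩ ⟨z', rfl⟩ ⟨b, hb, hba, ⟨y, hy⟩⟩ ⟨b', hb', hba', ⟨y', hy'⟩⟩
    obtain ⟨h3, h4, h5⟩ := cpm_ext π x t (Ne.symm hba) hy.symm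
    obtain ⟨h6, h7, h8⟩ := cpm_ext π x t (Ne.symm hba') hy'.symm
    have h9 := hleaf _ _ ⟨_, rfl⟩ ⟨_, rfl⟩ ⟨b.1, hTmem b hb, hba, ⟨_, h5.symm⟩⟩
      ⟨b'.1, hTmem b' hb', hba', ⟨_, h8.symm⟩⟩
    change cpm π x t d (e a z) = cpm π x t d (e a' z')
    rw [cpm_pos π x t h3, cpm_pos π x t h6]
    exact congrArg Sum.inl h9
  have hnot : ∀ d a, Leaf e (Sd d) a → Leaf t T d → ¬ Leaf (ee e π x t) S (d, a) →
      ∃ u ∈ Set.range (ee e π x t (d, a)), (∃ p ∈ S, p.1 ≠ d ∧ u ∈ Set.range (ee e π x t p)) ∧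
        ¬ (∃ b, (d, b) ∈ S ∧ b ≠ a ∧ u ∈ Set.range (ee e π x t (d, b))) := by
    intro d a hl1 hl2 hn
    by_contra hcon
    push Not at hcon
    refine hn fun v v' hv hv' hs hs' => ?_
    have hA : ∀ u ∈ Set.range (ee e π x t (d, a)),
        (∃ b ∈ S, b ≠ (d, a) ∧ u ∈ Set.range (ee e π x t b)) →
        ∃ b, (d, b) ∈ S ∧ b ≠ a ∧ u ∈ Set.range (ee e π x t (d, b)) := by
      intro u hu hs
      rcases hsplit d a u hs with h | ⟨p, hp, hpd, hup⟩
      · exact h
      · exact hcon u hu ⟨p, hp, hpd, hup⟩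
    exact hint d a hl1 v v' hv hv' (hA v hv hs) (hA v' hv' hs')
  have hone : ∀ d ∈ T, Leaf t T d → ∃ a, (d, a) ∈ S ∧ Leaf (ee e π x t) S (d, a) := by
    intro d hd hleaf
    obtain ⟨⟨d', a0⟩, ha0, hdd⟩ := Finset.mem_image.1 hd
    simp only at hdd
    subst hdd
    by_cases h1 : ∀ b, (d', b) ∈ S → b = a0
    · refine ⟨a0, ha0, leaf_alone e π x t hπ ?_⟩
      rintro ⟨d, b⟩ hb hdb
      simp only at hdb
      subst hdb
      rw [h1 b hb]
    · push Not at h1
      obtain ⟨b0, hb0, hne⟩ := h1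
      have hcard : 2 ≤ (Sd d').card := Finset.one_lt_card.2
        ⟨b0, (hSd d' b0).2 hb0, a0, (hSd d' a0).2 ha0, hne⟩
      obtain ⟨a, ha, b, hb, hab, hla, hlb⟩ := he (Sd d') hcard ((hSdcard d').trans hg)
      by_contra hcon
      push Not at hcon
      obtain ⟨u, hu, hu1, hu2⟩ := hnot d' a hla hleaf (hcon a ((hSd d' a).1 ha))
      obtain ⟨u', hu', hu1', hu2'⟩ := hnot d' b hlb hleaf (hcon b ((hSd d' b).1 hb))
      have := hext d' hleaf a b u u' hu hu' hu1 hu1'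
      subst this
      exact hu2 ⟨b, (hSd d' b).1 hb, hab.symm, hu'⟩
  by_cases hT1 : 2 ≤ T.card
  · obtain ⟨d1, hd1, d2, hd2, hdd, hl1, hl2⟩ := ht T hT1 (by omega)
    obtain ⟨a, ha, hla⟩ := hone d1 hd1 hl1
    obtain ⟨b, hb, hlb⟩ := hone d2 hd2 hl2
    exact ⟨_, ha, _, hb, fun h => hdd (congrArg Prod.fst h), hla, hlb⟩
  · -- all edges lie in one copy
    obtain ⟨⟨d, a0⟩, ha0, ⟨d0, b0⟩, hb0, hne0⟩ := Finset.one_lt_card.1 h2
    have hall : ∀ p ∈ S, p.1 = d := by
      intro p hp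
      by_contra hpd
      exact hT1 (Finset.one_lt_card.2 ⟨p.1, hTmem p hp, d, hTmem _ ha0, hpd⟩)
    have hd0 : d0 = d := hall _ hb0
    subst hd0
    have hcard : 2 ≤ (Sd d0).card := Finset.one_lt_card.2
      ⟨a0, (hSd _ a0).2 ha0, b0, (hSd _ b0).2 hb0, fun h => hne0 (by rw [h])⟩
    obtain ⟨a, ha, b, hb, hab, hla, hlb⟩ := he (Sd d0) hcard ((hSdcard d0).trans hg)
    have hA : ∀ a u, (∃ b ∈ S, b ≠ (d0, a) ∧ u ∈ Set.range (ee e π x t b)) →
        ∃ b, (d0, b) ∈ S ∧ b ≠ a ∧ u ∈ Set.range (ee e π x t (d0, b)) := by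
      intro a u hs
      rcases hsplit d0 a u hs with h | ⟨p, hp, hpd, hup⟩
      · exact h
      · exact (hpd (hall p hp)).elim
    exact ⟨_, (hSd _ _).1 ha, _, (hSd _ _).1 hb, fun h => hab (congrArg Prod.snd h),
      fun v v' hv hv' hs hs' => hint d0 a hla v v' hv hv' (hA a v hs) (hA a v' hs'),
      fun v v' hv hv' hs hs' => hint d0 b hlb v v' hv hv' (hA b v hs) (hA b v' hs')⟩

end Amal

/-- The statement proved by induction on `g`. -/
def HypStm (g r : ℕ) : Prop :=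
  ∀ (C : Type) [Finite C], ∃ (W E : Type) (_ : Finite W) (_ : Finite E) (e : E → (C ↪ W)),
    Sparse g e ∧ ∀ c : W → Fin r, ∃ (i : Fin r) (a : E), ∀ z, c (e a z) = i

theorem hstep {g r : ℕ} (hyp : HypStm g r) {C X W E : Type} [Finite W] [Finite E]
    (e : E → (C ↪ W)) (π : W → X) (hπ : ∀ a, Function.Injective (fun z => π (e a z)))
    (he : Sparse (g + 1) e) (x : X) :
    ∃ (W' E' : Type) (_ : Finite W') (_ : Finite E') (e' : E' → (C ↪ W')) (π' : W' → X),
      (∀ a, Function.Injective (fun z => π' (e' a z))) ∧ Sparse (g + 1) e' ∧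
      ∀ c : W' → Fin r, ∃ (φ : W → W') (ψ : E → E'), (∀ w, π' (φ w) = π w) ∧
        (∀ a z, e' (ψ a) z = φ (e a z)) ∧ ∃ i, ∀ w, π w = x → c (φ w) = i := by
  obtain ⟨Y, D, _, _, t, ht, htc⟩ := hyp {w // π w = x}
  have hpi : ∀ d w, Sum.elim (fun _ => x) (fun q : D × {w // π w ≠ x} => π q.2.1)
      (cpm π x t d w) = π w := by
    intro d w
    by_cases h : π w = x
    · rw [cpm_pos π x t h, Sum.elim_inl, h]
    · rw [cpm_neg π x t h, Sum.elim_inr]
  refine ⟨Y ⊕ (D × {w // π w ≠ x}), D × E, inferInstance, inferInstance, ee e π x t,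
    Sum.elim (fun _ => x) (fun q => π q.2.1), ?_, ee_sparse e π x t hπ he ht, ?_⟩
  · intro p z z' h
    apply hπ p.2
    have h' : Sum.elim (fun _ => x) (fun q : D × {w // π w ≠ x} => π q.2.1)
        (cpm π x t p.1 (e p.2 z)) = Sum.elim (fun _ => x)
        (fun q : D × {w // π w ≠ x} => π q.2.1) (cpm π x t p.1 (e p.2 z')) := h
    rw [hpi, hpi] at h'
    exact h'
  · intro c
    obtain ⟨i, d, hd⟩ := htc (fun y => c (Sum.inl y))
    refine ⟨cpm π x t d, fun a => (d, a), hpi d, fun a z => rfl, i, fun w hw => ?_⟩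
    rw [cpm_pos π x t hw]
    exact hd _

theorem hsteps {g r : ℕ} (hyp : HypStm g r) {C X W E : Type} [Finite W] [Finite E]
    (e : E → (C ↪ W)) (π : W → X) (hπ : ∀ a, Function.Injective (fun z => π (e a z)))
    (he : Sparse (g + 1) e) (T : Finset X) :
    ∃ (W' E' : Type) (_ : Finite W') (_ : Finite E') (e' : E' → (C ↪ W')) (π' : W' → X),
      (∀ a, Function.Injective (fun z => π' (e' a z))) ∧ Sparse (g + 1) e' ∧
      ∀ c : W' → Fin r, ∃ (φ : W → W') (ψ : E → E'), (∀ w, π' (φ w) = π w) ∧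
        (∀ a z, e' (ψ a) z = φ (e a z)) ∧ ∀ x ∈ T, ∃ i, ∀ w, π w = x → c (φ w) = i := by
  classical
  induction T using Finset.induction_on with
  | empty =>
    exact ⟨W, E, inferInstance, inferInstance, e, π, hπ, he, fun c =>
      ⟨id, id, fun _ => rfl, fun _ _ => rfl, fun x hx => by simp at hx⟩⟩
  | insert x T _ ih =>
    obtain ⟨W1, E1, _, _, e1, π1, h1, h2, h3⟩ := ih
    obtain ⟨W2, E2, _, _, e2, π2, k1, k2, k3⟩ := hstep hyp e1 π1 h1 h2 x
    refine ⟨W2, E2, inferInstance, inferInstance, e2, π2, k1, k2, fun c => ?_⟩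
    obtain ⟨φ2, ψ2, hφ2, hψ2, i, hi⟩ := k3 c
    obtain ⟨φ1, ψ1, hφ1, hψ1, hT⟩ := h3 (fun w => c (φ2 w))
    refine ⟨fun w => φ2 (φ1 w), fun a => ψ2 (ψ1 a), fun w => ?_, fun a z => ?_,
      fun x' hx' => ?_⟩
    · rw [hφ2, hφ1]
    · rw [hψ2, hψ1]
    · rcases Finset.mem_insert.1 hx' with rfl | hx'
      · exact ⟨i, fun w hw => hi (φ1 w) ((hφ1 w).trans hw)⟩
      · exact hT x' hx'

/-- Existence of sparse Ramsey hypergraphs. -/
theorem hyp {r : ℕ} (hr : 1 ≤ r) (g : ℕ) : HypStm g r := by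
  classical
  induction g with
  | zero =>
    intro C _
    have : Fintype C := Fintype.ofFinite C
    refine ⟨Fin (r * Fintype.card C), C ↪ Fin (r * Fintype.card C), inferInstance, inferInstance,
      id, fun S h2 h0 => absurd h0 (by omega), fun c => ?_⟩
    obtain ⟨i, hi⟩ := exists_color hr le_rfl c
    have hcard : Fintype.card C ≤ Fintype.card {y : Fin (r * Fintype.card C) // c y = i} :=
      hi.trans_eq (Fintype.card_subtype (fun y : Fin (r * Fintype.card C) => c y = i)).symm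
    obtain ⟨φ⟩ := Function.Embedding.nonempty_of_card_le hcard
    exact ⟨i, φ.trans (Function.Embedding.subtype _), fun z => (φ z).2⟩
  | succ g ih =>
    intro C _
    have : Fintype C := Fintype.ofFinite C
    let e : (C ↪ Fin (r * Fintype.card C)) → (C ↪ ((C ↪ Fin (r * Fintype.card C)) × C)) :=
      fun M => ⟨fun z => (M, z), fun a b h => by simpa using h⟩
    let π : ((C ↪ Fin (r * Fintype.card C)) × C) → Fin (r * Fintype.card C) := fun p => p.1 p.2
    have hπ : ∀ M, Function.Injective (fun z => π (e M z)) := fun M => M.injective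
    have he : Sparse (g + 1) e := by
      intro S h2 _
      obtain ⟨p, hp, q, hq, hpq⟩ := Finset.one_lt_card.1 h2
      have hl : ∀ M, Leaf e S M := by
        rintro M v v' ⟨z, rfl⟩ _ ⟨b, _, hb, ⟨y, hy⟩⟩ _
        exact (hb (congrArg Prod.fst hy)).elim
      exact ⟨p, hp, q, hq, hpq, hl p, hl q⟩
    obtain ⟨W', E', hW', hE', e', π', -, h2, h3⟩ := hsteps ih e π hπ he Finset.univ
    refine ⟨W', E', hW', hE', e', h2, fun c => ?_⟩
    obtain ⟨φ, ψ, hφ, hψ, hT⟩ := h3 c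
    choose col hcol using fun x => hT x (Finset.mem_univ x)
    obtain ⟨i, hi⟩ := exists_color hr le_rfl col
    have hcard : Fintype.card C ≤ Fintype.card {y : Fin (r * Fintype.card C) // col y = i} :=
      hi.trans_eq (Fintype.card_subtype (fun y : Fin (r * Fintype.card C) => col y = i)).symm
    obtain ⟨f⟩ := Function.Embedding.nonempty_of_card_le hcard
    refine ⟨i, ψ (f.trans (Function.Embedding.subtype _)), fun z => ?_⟩
    rw [hψ, hcol (f z).1 _ rfl]
    exact (f z).2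

end Pool.Agent.Y12.CR
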