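import Pool.Agent.Y12.CR.Folk
import Pool.Agent.Results.MP_fbe9f6_co.BipartiteRelated

/-!
# The main recursion
-/

set_option autoImplicit false

namespace Pool.Agent.Y12.CR

open Pool.Agent.Results.MP_fbe9f6_co.BipartiteRelated

universe u v w

theorem isFreeColoring_iff {W : Type u} {U : Type v} {κ : Type w} (H : SimpleGraph W)
    (F : SimpleGraph U) (c : W → κ) :
    IsFreeColoring H F c ↔ ∀ (i : κ) (f : F ↪g H), ¬ ∀ a, c (f a) = i := by
  constructor
  · intro h i f hf
    refine (h i).false ⟨⟨fun a => ⟨f a, hf a⟩, ?_⟩, ?_⟩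
    · intro a b hab
      exact f.injective (congrArg Subtype.val hab)
    · intro a b
      exact f.map_adj_iff
  · intro h i
    exact ⟨fun f => h i ((SimpleGraph.Embedding.induce _).comp f) fun a => (f a).2⟩

/-- All edges of `G` inside `κ` or inside the complement of `κ`. -/
def inner {V : Type} (G : SimpleGraph V) (κ : Set V) : SimpleGraph V where
  Adj u v := G.Adj u v ∧ (u ∈ κ ↔ v ∈ κ)
  symm := ⟨fun _ _ h => ⟨h.1.symm, h.2.symm⟩⟩
  loopless := ⟨fun _ h => h.1.ne rfl⟩

theorem inner_free {U : Type u} {F : SimpleGraph U} (hF : NoCut F) {V : Type}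
    (G : SimpleGraph V) (κ : Set V) (h1 : ∀ f : F ↪g G, ∃ a, f a ∉ κ)
    (h2 : ∀ f : F ↪g G, ∃ a, f a ∈ κ) : IsEmpty (F ↪g inner G κ) := by
  refine ⟨fun f => ?_⟩
  have key := const_of_pre hF.pre (fun a => f a ∈ κ)
    (fun a b hab => propext (f.map_adj_iff.2 hab).2)
  have hiff : ∀ a b, f a ∈ κ ↔ f b ∈ κ := fun a b => iff_of_eq (key a b)
  let g : F ↪g G := ⟨⟨fun a => f a, f.injective⟩, fun {a b} => by
    change G.Adj (f a) (f b) ↔ F.Adj a b
    rw [← f.map_adj_iff]
    exact ⟨fun h => ⟨h, hiff a b⟩, fun h => h.1⟩⟩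
  obtain ⟨a, ha⟩ := h1 g
  obtain ⟨b, hb⟩ := h2 g
  exact ha ((hiff a b).2 hb)

/-- The disjoint union of `B` and of copies of `C` indexed by `Y`. -/
def many {B C Y : Type} (P : SimpleGraph B) (K : SimpleGraph C) : SimpleGraph (B ⊕ (Y × C)) where
  Adj a b := match a, b with
    | Sum.inl u, Sum.inl v => P.Adj u v
    | Sum.inl _, Sum.inr _ => False
    | Sum.inr _, Sum.inl _ => False
    | Sum.inr p, Sum.inr q => p.1 = q.1 ∧ K.Adj p.2 q.2
  symm := ⟨by
    rintro (y | q) (y' | q') h
    · exact h.symm
    · exact h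
    · exact h
    · exact ⟨h.1.symm, h.2.symm⟩⟩
  loopless := ⟨by
    rintro (y | q) h
    · exact h.ne rfl
    · exact h.2.ne rfl⟩

theorem many_free {U : Type u} {F : SimpleGraph U} (hF : NoCut F) {B C Y : Type}
    {P : SimpleGraph B} {K : SimpleGraph C} (hP : IsEmpty (F ↪g P)) (hK : IsEmpty (F ↪g K)) :
    IsEmpty (F ↪g many (Y := Y) P K) := by
  refine ⟨fun f => ?_⟩
  have key := const_of_pre hF.pre
    (fun a => Sum.elim (fun _ => (none : Option Y)) (fun q => some q.1) (f a))
    (by
      intro a b hab
      have h : (many (Y := Y) P K).Adj (f a) (f b) := f.map_adj_iff.2 hab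
      change Sum.elim _ _ (f a) = Sum.elim _ _ (f b)
      rcases hfa : f a with y | q <;> rcases hfb : f b with y' | q' <;> rw [hfa, hfb] at h
      · rfl
      · exact h.elim
      · exact h.elim
      · exact congrArg some h.1)
  obtain ⟨x, -, -⟩ := hF.edge
  rcases hx : f x with y | q
  · have hall : ∀ a, ∃ b, f a = Sum.inl b := by
      intro a
      have h := key a x
      rcases ha : f a with b | q'
      · exact ⟨b, rfl⟩
      · simp [ha, hx] at h
    choose g hg using hall
    refine hP.false ⟨⟨g, ?_⟩, ?_⟩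
    · intro a b hab
      apply f.injective
      rw [hg a, hg b, hab]
    · intro a b
      change P.Adj (g a) (g b) ↔ F.Adj a b
      rw [← f.map_adj_iff, hg a, hg b]
      exact Iff.rfl
  · have hall : ∀ a, ∃ b, f a = Sum.inr (q.1, b) := by
      intro a
      have h := key a x
      rcases ha : f a with b | q'
      · simp [ha, hx] at h
      · refine ⟨q'.2, ?_⟩
        simp only [ha, hx, Sum.elim_inr, Option.some.injEq] at h
        rw [← h]
    choose g hg using hall
    refine hK.false ⟨⟨g, ?_⟩, ?_⟩
    · intro a b hab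
      apply f.injective
      rw [hg a, hg b, hab]
    · intro a b
      change K.Adj (g a) (g b) ↔ F.Adj a b
      rw [← f.map_adj_iff, hg a, hg b]
      exact ⟨fun h => ⟨rfl, h⟩, fun h => h.2⟩

/-- The first summand. -/
def manyL {B C Y : Type} (P : SimpleGraph B) (K : SimpleGraph C) : P ↪g many (Y := Y) P K :=
  ⟨⟨Sum.inl, Sum.inl_injective⟩, Iff.rfl⟩

/-- The copy with index `y`. -/
def manyR {B C Y : Type} (P : SimpleGraph B) (K : SimpleGraph C) (y : Y) :
    K ↪g many (Y := Y) P K :=
  ⟨⟨fun c => Sum.inr (y, c), fun a b h => by simpa using h⟩,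
    ⟨fun h => h.2, fun h => ⟨rfl, h⟩⟩⟩

/-- Add to `H` one copy of `R` for each map `s` from the vertices of `R` to the sets of vertices
of `H`; the vertex `q` of this copy is joined exactly to the members of `s q`. -/
def layer {W Q : Type} (H : SimpleGraph W) (R : SimpleGraph Q) :
    SimpleGraph (W ⊕ ((Q → Set W) × Q)) where
  Adj a b := match a, b with
    | Sum.inl u, Sum.inl v => H.Adj u v
    | Sum.inl u, Sum.inr q => u ∈ q.1 q.2
    | Sum.inr q, Sum.inl u => u ∈ q.1 q.2
    | Sum.inr q, Sum.inr q' => q.1 = q'.1 ∧ R.Adj q.2 q'.2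
  symm := ⟨by
    rintro (y | q) (y' | q') h
    · exact h.symm
    · exact h
    · exact h
    · exact ⟨h.1.symm, h.2.symm⟩⟩
  loopless := ⟨by
    rintro (y | q) h
    · exact h.ne rfl
    · exact h.2.ne rfl⟩

/-- The main recursion. -/
theorem recursion {U : Type u} [Finite U] {F : SimpleGraph U} (hF : NoCut F) {V : Type} [Finite V]
    (G : SimpleGraph V) (κ : Set V) (h1 : ∀ f : F ↪g G, ∃ a, f a ∉ κ)
    (h2 : ∀ f : F ↪g G, ∃ a, f a ∈ κ) {r : ℕ} (hr : 1 ≤ r) (j : ℕ) :
    ∀ (B : Type) [Finite B] (P : SimpleGraph B), IsEmpty (F ↪g P) →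
    ∃ (W : Type) (_ : Finite W) (H : SimpleGraph W),
      (∃ p : W → Fin j, ∀ (i : Fin j) (f : F ↪g H), ¬ ∀ a, p (f a) = i) ∧
      ∀ c : W → Fin r, (∀ (i : Fin r) (f : G ↪g H), ¬ ∀ a, c (f a) = i) →
        ∃ I : Finset (Fin r), j ≤ I.card ∧ ∀ i ∈ I, ∃ e : P ↪g H, ∀ b, c (e b) = i := by
  classical
  induction j with
  | zero =>
    intro B _ P _
    exact ⟨Fin 0, inferInstance, ⊥, ⟨id, fun i => i.elim0⟩, fun c _ => ⟨∅, by simp, by simp⟩⟩
  | succ j ih =>
    intro B _ P hP
    have hin := inner_free hF G κ h1 h2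
    -- the Ramsey graph for the new layer
    obtain ⟨Q, _, R, hR, hRc⟩ := folkman hF (many (Y := Unit) P (inner G κ))
      (many_free hF hP hin) hr
    have hfinE : Finite (inner G κ ↪g R) :=
      Finite.of_injective (fun f : inner G κ ↪g R => (f : V → Q)) DFunLike.coe_injective
    obtain ⟨W, _, H, ⟨p, hp⟩, hH⟩ := ih (B ⊕ ((inner G κ ↪g R) × V))
      (many (Y := (inner G κ ↪g R)) P (inner G κ)) (many_free hF hP hin)
    refine ⟨W ⊕ ((Q → Set W) × Q), inferInstance, layer H R, ?_, ?_⟩
    · refine ⟨Sum.elim (fun w => (p w).castSucc) (fun _ => Fin.last j), ?_⟩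
      intro i f hf
      refine Fin.lastCases (motive := fun i => (∀ a, Sum.elim (fun w => (p w).castSucc)
        (fun _ => Fin.last j) (f a) = i) → False) ?_ ?_ i hf
      · intro hf
        have hall : ∀ a, ∃ q, f a = Sum.inr q := by
          intro a
          have h := hf a
          rcases ha : f a with b | q
          · rw [ha, Sum.elim_inl] at h
            exact ((Fin.castSucc_lt_last (p b)).ne h).elim
          · exact ⟨q, rfl⟩
        choose g hg using hall
        have key := const_of_pre hF.pre (fun a => (g a).1) (by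
          intro a b hab
          have h : (layer H R).Adj (f a) (f b) := f.map_adj_iff.2 hab
          rw [hg a, hg b] at h
          exact h.1)
        refine hR.false ⟨⟨fun a => (g a).2, ?_⟩, ?_⟩
        · intro a b hab
          apply f.injective
          rw [hg a, hg b, Prod.ext (key a b) hab]
        · intro a b
          change R.Adj (g a).2 (g b).2 ↔ F.Adj a b
          rw [← f.map_adj_iff, hg a, hg b]
          exact ⟨fun h => ⟨key a b, h⟩, fun h => h.2⟩
      · intro i hf
        have hall : ∀ a, ∃ w, f a = Sum.inl w ∧ p w = i := by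
          intro a
          have h := hf a
          rcases ha : f a with b | q
          · rw [ha, Sum.elim_inl] at h
            exact ⟨b, rfl, Fin.castSucc_injective _ h⟩
          · rw [ha, Sum.elim_inr] at h
            exact ((Fin.castSucc_lt_last i).ne h.symm).elim
        choose g hg hgi using hall
        refine hp i ⟨⟨g, ?_⟩, ?_⟩ hgi
        · intro a b hab
          apply f.injective
          rw [hg a, hg b, hab]
        · intro a b
          change H.Adj (g a) (g b) ↔ F.Adj a b
          rw [← f.map_adj_iff, hg a, hg b]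
          exact Iff.rfl
    · intro c hc
      have embL : H ↪g layer H R := ⟨⟨Sum.inl, Sum.inl_injective⟩, Iff.rfl⟩
      obtain ⟨I, hI, hIe⟩ := hH (fun w => c (Sum.inl w)) (by
        intro i f hf
        refine hc i ⟨⟨fun a => Sum.inl (f a), ?_⟩, ?_⟩ hf
        · intro a b hab
          exact f.injective (Sum.inl_injective hab)
        · intro a b
          exact f.map_adj_iff)
      choose e he using hIe
      -- the attachment map
      let s : Q → Set W := fun q => {w | ∃ (i : Fin r) (hi : i ∈ I) (f : inner G κ ↪g R) (x y : V),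
        f y = q ∧ w = e i hi (Sum.inr (f, x)) ∧ G.Adj x y}
      have hs : ∀ (i : Fin r) (hi : i ∈ I) (f : inner G κ ↪g R) (x y : V),
          e i hi (Sum.inr (f, x)) ∈ s (f y) ↔ G.Adj x y := by
        intro i hi f x y
        constructor
        · rintro ⟨i', hi', f', x', y', h1, h2, h3⟩
          have hcol : i = i' := by
            rw [← he i hi (Sum.inr (f, x)), ← he i' hi' (Sum.inr (f', x')), h2]
          subst hcol
          have h4 := (e i hi).injective h2
          simp only [Sum.inr.injEq, Prod.mk.injEq] at h4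
          obtain ⟨rfl, rfl⟩ := h4
          have := f.injective h1
          subst this
          exact h3
        · intro h
          exact ⟨i, hi, f, x, y, rfl, rfl, h⟩
      obtain ⟨i, e', he'⟩ := hRc (fun q => c (Sum.inr (s, q)))
      by_cases hiI : i ∈ I
      · exfalso
        let f : inner G κ ↪g R := e'.comp (manyR P (inner G κ) ())
        have hf : ∀ x, c (Sum.inr (s, f x)) = i := fun x => he' (Sum.inr ((), x))
        let g : V → W ⊕ ((Q → Set W) × Q) := fun x =>
          if x ∈ κ then Sum.inl (e i hiI (Sum.inr (f, x))) else Sum.inr (s, f x)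
        have hg1 : ∀ x, x ∈ κ → g x = Sum.inl (e i hiI (Sum.inr (f, x))) := by
          intro x hx
          simp only [g, hx, if_true]
        have hg2 : ∀ x, x ∉ κ → g x = Sum.inr (s, f x) := by
          intro x hx
          simp only [g, hx, if_false]
        refine hc i ⟨⟨g, ?_⟩, ?_⟩ ?_
        · intro a b hab
          by_cases ha : a ∈ κ <;> by_cases hb : b ∈ κ
          · rw [hg1 a ha, hg1 b hb] at hab
            have h4 := (e i hiI).injective (Sum.inl_injective hab)
            simpa using h4
          · rw [hg1 a ha, hg2 b hb] at hab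
            simp at hab
          · rw [hg2 a ha, hg1 b hb] at hab
            simp at hab
          · rw [hg2 a ha, hg2 b hb] at hab
            have h4 := Sum.inr_injective hab
            rw [Prod.mk.injEq] at h4
            exact f.injective h4.2
        · intro a b
          change (layer H R).Adj (g a) (g b) ↔ G.Adj a b
          by_cases ha : a ∈ κ <;> by_cases hb : b ∈ κ
          · rw [hg1 a ha, hg1 b hb]
            change H.Adj _ _ ↔ _
            rw [(e i hiI).map_adj_iff]
            exact ⟨fun h => h.2.1, fun h => ⟨rfl, h, by simp [ha, hb]⟩⟩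
          · rw [hg1 a ha, hg2 b hb]
            exact hs i hiI f a b
          · rw [hg2 a ha, hg1 b hb, G.adj_comm]
            exact hs i hiI f b a
          · rw [hg2 a ha, hg2 b hb]
            constructor
            · rintro ⟨-, h⟩
              exact (f.map_adj_iff.1 h).1
            · intro h
              exact ⟨rfl, f.map_adj_iff.2 ⟨h, by simp [ha, hb]⟩⟩
        · intro a
          change c (g a) = i
          by_cases ha : a ∈ κ
          · rw [hg1 a ha]
            exact he i hiI _
          · rw [hg2 a ha]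
            exact hf a
      · refine ⟨insert i I, ?_, ?_⟩
        · rw [Finset.card_insert_of_notMem hiI]
          omega
        · intro i' hi'
          rcases Finset.mem_insert.1 hi' with rfl | hi'
          · refine ⟨⟨⟨fun b => Sum.inr (s, e' (Sum.inl b)), ?_⟩, ?_⟩, fun b => he' _⟩
            · intro a b hab
              have h4 := Sum.inr_injective hab
              rw [Prod.mk.injEq] at h4
              exact Sum.inl_injective (e'.injective h4.2)
            · intro a b
              change (s = s ∧ R.Adj (e' (Sum.inl a)) (e' (Sum.inl b))) ↔ P.Adj a b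
              rw [e'.map_adj_iff]
              exact ⟨fun h => h.2, fun h => ⟨rfl, h⟩⟩
          · refine ⟨⟨⟨fun b => Sum.inl (e i' hi' (Sum.inl b)), ?_⟩, ?_⟩, fun b => he i' hi' _⟩
            · intro a b hab
              exact Sum.inl_injective ((e i' hi').injective (Sum.inl_injective hab))
            · intro a b
              change H.Adj (e i' hi' (Sum.inl a)) (e i' hi' (Sum.inl b)) ↔ P.Adj a b
              rw [(e i' hi').map_adj_iff]
              exact Iff.rfl

/-- The core theorem. -/
theorem core {U : Type u} [Finite U] {F : SimpleGraph U} (hF : NoCut F) {V : Type} [Finite V]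
    [Nonempty V] (G : SimpleGraph V) (κ : Set V) (h1 : ∀ f : F ↪g G, ∃ a, f a ∉ κ)
    (h2 : ∀ f : F ↪g G, ∃ a, f a ∈ κ) {l : ℕ} (hl : 2 ≤ l) :
    ∃ (W : Type) (_ : Finite W) (H : SimpleGraph W),
      (∃ p : W → Fin l, IsFreeColoring H F p) ∧
      ∀ (k : ℕ) (c : W → Fin k), IsFreeColoring H G c → l ≤ k := by
  obtain ⟨r, rfl⟩ : ∃ r, l = r + 1 := ⟨l - 1, by omega⟩
  have hempty : IsEmpty (F ↪g (⊥ : SimpleGraph (Fin 0))) := by
    obtain ⟨x, -, -⟩ := hF.edge
    exact ⟨fun f => (f x).elim0⟩
  obtain ⟨W, hW, H, ⟨p, hp⟩, hH⟩ := recursion hF G κ h1 h2 (show 1 ≤ r by omega) (r + 1)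
    (Fin 0) ⊥ hempty
  refine ⟨W, hW, H, ⟨p, (isFreeColoring_iff H F p).2 hp⟩, ?_⟩
  intro k c hc
  by_contra hlt
  have hc' := hc.castLE (show k ≤ r by omega)
  obtain ⟨I, hI, -⟩ := hH _ ((isFreeColoring_iff _ _ _).1 hc')
  have := Finset.card_le_univ I
  rw [Fintype.card_fin] at this
  omega

end Pool.Agent.Y12.CR
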