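import Pool.Agent.Y12.CR.Char

/-!
# Pairs of graphs without stable cutset, and complements
-/

set_option autoImplicit false

namespace Pool.Agent.Y12.CR

open Pool.Agent.Results.MP_fbe9f6_co.BipartiteRelated

universe u v w

theorem compl_emb {W : Type u} {U : Type v} {H : SimpleGraph W} {F : SimpleGraph U}
    (f : Fᶜ ↪g Hᶜ) : ∃ g : F ↪g H, ∀ a, g a = f a := by
  refine ⟨⟨f.toEmbedding, ?_⟩, fun _ => rfl⟩
  intro a b
  change H.Adj (f a) (f b) ↔ F.Adj a b
  by_cases hab : a = b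
  · subst hab
    exact ⟨fun h => (h.ne rfl).elim, fun h => (h.ne rfl).elim⟩
  · have h := f.map_adj_iff (v := a) (w := b)
    rw [SimpleGraph.compl_adj, SimpleGraph.compl_adj] at h
    have h1 : f a ≠ f b := fun h' => hab (f.injective h')
    constructor
    · intro h2
      by_contra h3
      exact (h.2 ⟨hab, h3⟩).2 h2
    · intro h2
      by_contra h3
      exact (h.1 ⟨h1, h3⟩).2 h2

theorem compl_free {W : Type u} {U : Type v} {H : SimpleGraph W} {F : SimpleGraph U} {k : ℕ}
    {c : W → Fin k} (h : IsFreeColoring H F c) : IsFreeColoring Hᶜ Fᶜ c := by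
  rw [isFreeColoring_iff] at h ⊢
  intro i f hf
  obtain ⟨g, hg⟩ := compl_emb f
  refine h i g fun a => ?_
  rw [hg a]
  exact hf a

theorem compl_eq {W : Type u} {U : Type v} {H : SimpleGraph W} {F : SimpleGraph U} {l : ℕ}
    (h : FreeChromaticNumberEq H F l) : FreeChromaticNumberEq Hᶜ Fᶜ l := by
  obtain ⟨⟨c, hc⟩, hlow⟩ := h
  refine ⟨⟨c, compl_free hc⟩, ?_⟩
  rintro k ⟨c', hc'⟩
  have h2 := compl_free hc'
  rw [compl_compl, compl_compl] at h2
  exact hlow ⟨c', h2⟩

theorem compl_related {U : Type u} {V : Type v} {F : SimpleGraph U} {G : SimpleGraph V}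
    (h : ChromaticallyRelated F G) : ChromaticallyRelated Fᶜ Gᶜ := by
  intro l hl
  obtain ⟨W, hW, H, h1, h2⟩ := h l hl
  exact ⟨W, hW, Hᶜ, compl_eq h1, compl_eq h2⟩

theorem compl_related_iff {U : Type u} {V : Type v} {F : SimpleGraph U} {G : SimpleGraph V} :
    ChromaticallyRelated Fᶜ Gᶜ ↔ ChromaticallyRelated F G := by
  refine ⟨fun h => ?_, compl_related⟩
  have h2 := compl_related h
  rwa [compl_compl, compl_compl] at h2

/-- Characterization of the graphs which are chromatically related to an edgeless graph. -/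
theorem edgeless_iff {U : Type u} [Finite U] [Nontrivial U] {V : Type v} [Finite V] [Nontrivial V]
    (G : SimpleGraph V) : ChromaticallyRelated (⊥ : SimpleGraph U) G ↔
      (∃ c : V → Fin 2, IsFreeColoring G (⊥ : SimpleGraph U) c) ∧
      (∃ c : U → Fin 2, IsFreeColoring (⊥ : SimpleGraph U) G c) := by
  have h := complete_iff (U := U) Gᶜ
  rw [← compl_related_iff, compl_bot, h]
  constructor
  · rintro ⟨⟨c, hc⟩, c', hc'⟩
    have h1 := compl_free hc
    have h2 := compl_free hc'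
    rw [compl_compl, compl_top] at h1 h2
    exact ⟨⟨c, h1⟩, c', h2⟩
  · rintro ⟨⟨c, hc⟩, c', hc'⟩
    have h1 := compl_free hc
    have h2 := compl_free hc'
    rw [compl_bot] at h1 h2
    exact ⟨⟨c, h1⟩, c', h2⟩

/-- `F` or its complement is connected with an edge and without cut vertex. -/
def Good {U : Type u} (F : SimpleGraph U) : Prop := NoCut F ∨ NoCut Fᶜ

theorem NoCut.nontrivial {U : Type u} {F : SimpleGraph U} (hF : NoCut F) : Nontrivial U := by
  obtain ⟨x, y, h⟩ := hF.edge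
  exact ⟨x, y, h.ne⟩

theorem Good.nontrivial {U : Type u} {F : SimpleGraph U} (hF : Good F) : Nontrivial U :=
  hF.elim NoCut.nontrivial NoCut.nontrivial

theorem Good.compl {U : Type u} {F : SimpleGraph U} (hF : Good F) : Good Fᶜ := by
  rcases hF with h | h
  · right
    rwa [compl_compl]
  · exact Or.inl h

theorem emb_compl {W : Type u} {U : Type v} {H : SimpleGraph W} {F : SimpleGraph U}
    (h : Nonempty (F ↪g H)) : Nonempty (Fᶜ ↪g Hᶜ) := by
  obtain ⟨f⟩ := h
  have f' : Fᶜᶜ ↪g Hᶜᶜ := by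
    rw [compl_compl, compl_compl]
    exact f
  exact ⟨(compl_emb f').choose⟩

theorem compl_eq' {W : Type u} {U : Type v} {H : SimpleGraph W} {F : SimpleGraph U} {l : ℕ}
    (h : FreeChromaticNumberEq H Fᶜ l) : FreeChromaticNumberEq Hᶜ F l := by
  have h2 := compl_eq h
  rwa [compl_compl] at h2

theorem exact_of_good {U : Type u} [Finite U] {F : SimpleGraph U} (hF : Good F) {V : Type v}
    [Finite V] [Nontrivial V] (G : SimpleGraph V) (hFG : ¬ Nonempty (F ↪g G)) {r : ℕ}
    (hr : 1 ≤ r) : ∃ (X : Type) (_ : Finite X) (P : SimpleGraph X), IsEmpty (F ↪g P) ∧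
      FreeChromaticNumberEq P G (r + 1) := by
  rcases hF with hF | hF
  · exact exists_exact hF G (not_nonempty_iff.1 hFG) hr
  · have hFG' : IsEmpty (Fᶜ ↪g Gᶜ) := ⟨fun f => hFG ⟨(compl_emb f).choose⟩⟩
    obtain ⟨X, hX, P, hP, hG⟩ := exists_exact hF Gᶜ hFG' hr
    refine ⟨X, hX, Pᶜ, ⟨fun f => ?_⟩, compl_eq' hG⟩
    obtain ⟨f'⟩ := emb_compl ⟨f⟩
    rw [compl_compl] at f'
    exact hP.false f'

theorem pair_good {U : Type u} [Finite U] {F : SimpleGraph U} (hF : Good F) {V : Type v}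
    [Finite V] (G : SimpleGraph V) (hFG : Nonempty (F ↪g G)) :
    ChromaticallyRelated F G ↔ ∃ c : V → Fin 2, IsFreeColoring G F c := by
  refine ⟨two, ?_⟩
  rintro ⟨c, hc⟩
  rcases hF with hF | hF
  · exact (pair hF G hFG).2 ⟨c, hc⟩
  · exact compl_related_iff.1 ((pair hF Gᶜ (emb_compl hFG)).2 ⟨c, compl_free hc⟩)

/-- The main theorem for pairs. -/
theorem good_iff {U : Type u} [Finite U] {F : SimpleGraph U} (hF : Good F) {V : Type v}
    [Finite V] {G : SimpleGraph V} (hG : Nonempty (F ↪g G) ∨ Good G) :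
    ChromaticallyRelated F G ↔
      (∃ c : V → Fin 2, IsFreeColoring G F c) ∧ (∃ c : U → Fin 2, IsFreeColoring F G c) := by
  refine ⟨fun h => ⟨two h, two (symm' h)⟩, ?_⟩
  rintro ⟨h1, h2⟩
  by_cases hFG : Nonempty (F ↪g G)
  · exact (pair_good hF G hFG).2 h1
  have hG' : Good G := hG.resolve_left hFG
  by_cases hGF : Nonempty (G ↪g F)
  · exact symm' ((pair_good hG' F hGF).2 h2)
  have := hF.nontrivial
  have := hG'.nontrivial
  refine incomparable F G (fun r hr => exact_of_good hF G hFG hr) fun r hr => ?_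
  obtain ⟨Y, hY, K, hK, -, hlow⟩ := exact_of_good hG' F hGF hr
  refine ⟨Y, hY, K, hK, fun c hc => ?_⟩
  have := hlow ⟨c, hc⟩
  omega

/-- The main theorem for families. -/
theorem good_family {U : Type u} [Finite U] {F : SimpleGraph U} (hF : Good F) {ι : Type}
    [Finite ι] [Nonempty ι] (V : ι → Type v) [∀ i, Finite (V i)] (G : ∀ i, SimpleGraph (V i))
    (hFG : ∀ i, Nonempty (F ↪g G i)) (hG : ∀ i, ∃ c : V i → Fin 2, IsFreeColoring (G i) F c)
    {l : ℕ} (hl : 2 ≤ l) :
    ∃ (W : Type) (_ : Finite W) (H : SimpleGraph W), FreeChromaticNumberEq H F l ∧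
      ∀ i, FreeChromaticNumberEq H (G i) l := by
  rcases hF with hF | hF
  · exact family hF V G hFG hG hl
  · obtain ⟨W, hW, H, h1, h2⟩ := family hF V (fun i => (G i)ᶜ) (fun i => emb_compl (hFG i))
      (fun i => by
        obtain ⟨c, hc⟩ := hG i
        exact ⟨c, compl_free hc⟩) hl
    exact ⟨W, hW, Hᶜ, compl_eq' h1, fun i => compl_eq' (h2 i)⟩

end Pool.Agent.Y12.CR
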