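import Pool.Agent.Y12.CR.Char

/-!
# The paw is not chromatically related to some graphs
-/

set_option autoImplicit false

namespace Pool.Agent.Y12.CR

open Pool.Agent.Results.MP_fbe9f6_co.BipartiteRelated

universe u v

/-- The paw: the triangle `0, 1, 2` and the vertex `3`, which is adjacent to `0` only. -/
def paw : SimpleGraph (Fin 4) where
  Adj a b := a ≠ b ∧ ((a ≠ 3 ∧ b ≠ 3) ∨ a = 0 ∨ b = 0)
  symm := ⟨fun a b h => ⟨h.1.symm, by
    rcases h.2 with h | h | h
    · exact Or.inl ⟨h.2, h.1⟩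
    · exact Or.inr (Or.inr h)
    · exact Or.inr (Or.inl h)⟩⟩
  loopless := ⟨fun a h => h.1 rfl⟩

theorem paw_adj (a b : Fin 4) :
    paw.Adj a b ↔ a ≠ b ∧ ((a ≠ 3 ∧ b ≠ 3) ∨ a = 0 ∨ b = 0) := Iff.rfl

theorem paw_step {W : Type u} {R : SimpleGraph W} (hR : IsEmpty (paw ↪g R)) {a b c d : W}
    (hab : R.Adj a b) (hac : R.Adj a c) (hbc : R.Adj b c) (had : R.Adj a d) :
    d = b ∨ d = c ∨ R.Adj b d ∨ R.Adj c d := by
  by_contra hcon
  push Not at hcon
  obtain ⟨h1, h2, h3, h4⟩ := hcon
  have n1 := hab.ne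
  have n2 := hac.ne
  have n3 := hbc.ne
  have n4 := had.ne
  have s1 := hab.symm
  have s2 := hac.symm
  have s3 := hbc.symm
  have s4 := had.symm
  have t3 : ¬ R.Adj d b := fun h => h3 h.symm
  have t4 : ¬ R.Adj d c := fun h => h4 h.symm
  have key : ∀ x y : Fin 4, R.Adj (![a, b, c, d] x) (![a, b, c, d] y) ↔ paw.Adj x y := by
    intro x y
    rw [paw_adj]
    fin_cases x <;> fin_cases y <;> simp [hab, hac, hbc, had, s1, s2, s3, s4, h3, h4, t3, t4]
  refine hR.false ⟨⟨![a, b, c, d], ?_⟩, fun {x y} => key x y⟩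
  intro x y hxy
  by_contra hne
  have h5 : ∀ x y : Fin 4, x ≠ y → (![a, b, c, d] x) ≠ (![a, b, c, d] y) := by
    intro x y hxy
    fin_cases x <;> fin_cases y <;> simp_all [Ne.symm]
  exact h5 x y hne hxy

/-- `w` lies in a triangle. -/
def InTri {W : Type u} (R : SimpleGraph W) (w : W) : Prop :=
  ∃ x y, R.Adj w x ∧ R.Adj w y ∧ R.Adj x y

theorem edge_tri {W : Type u} {R : SimpleGraph W} (hR : IsEmpty (paw ↪g R)) {v d : W}
    (hv : InTri R v) (hvd : R.Adj v d) : ∃ x, R.Adj v x ∧ R.Adj d x := by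
  obtain ⟨b, c, hb, hc, hbc⟩ := hv
  rcases paw_step hR hb hc hbc hvd with h | h | h | h
  · rw [h]
    exact ⟨c, hc, hbc⟩
  · rw [h]
    exact ⟨b, hb, hbc.symm⟩
  · exact ⟨b, hb, h.symm⟩
  · exact ⟨c, hc, h.symm⟩

theorem closed {W : Type u} {R : SimpleGraph W} (hR : IsEmpty (paw ↪g R)) {u v x y w : W}
    (huv : R.Adj u v) (hux : R.Adj u x) (hvx : R.Adj v x) (huy : R.Adj u y) (hyw : R.Adj y w) :
    w = u ∨ w = v ∨ R.Adj u w ∨ R.Adj v w := by
  by_cases hvy : R.Adj v y
  · exact paw_step hR huy.symm hvy.symm huv hyw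
  · rcases paw_step hR huv hux hvx huy with h | h | h | h
    · rw [h] at hyw
      exact Or.inr (Or.inr (Or.inr hyw))
    · rw [h] at hvy
      exact absurd hvx hvy
    · exact absurd h hvy
    · rcases paw_step hR huy.symm h.symm hux hyw with h2 | h2 | h2 | h2
      · exact Or.inl h2
      · rw [h2]
        exact Or.inr (Or.inr (Or.inl hux))
      · exact Or.inr (Or.inr (Or.inl h2))
      · exact paw_step hR hux.symm hvx.symm huv h2

theorem dominate {W : Type u} {R : SimpleGraph W} (hR : IsEmpty (paw ↪g R)) {u v x : W}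
    (huv : R.Adj u v) (hux : R.Adj u x) (hvx : R.Adj v x) {w : W} (h : R.Reachable u w) :
    w = u ∨ w = v ∨ R.Adj u w ∨ R.Adj v w := by
  have key : ∀ y w : W, R.Walk y w → (y = u ∨ y = v ∨ R.Adj u y ∨ R.Adj v y) →
      (w = u ∨ w = v ∨ R.Adj u w ∨ R.Adj v w) := by
    intro y w p
    induction p with
    | nil => exact id
    | @cons y y' w hadj _ ih =>
      intro hy
      apply ih
      rcases hy with h | h | h | h
      · rw [h] at hadj
        exact Or.inr (Or.inr (Or.inl hadj))
      · rw [h] at hadj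
        exact Or.inr (Or.inr (Or.inr hadj))
      · exact closed hR huv hux hvx h hadj
      · rcases closed hR huv.symm hvx hux h hadj with h | h | h | h
        · exact Or.inr (Or.inl h)
        · exact Or.inl h
        · exact Or.inr (Or.inr (Or.inr h))
        · exact Or.inr (Or.inr (Or.inl h))
  obtain ⟨p⟩ := h
  exact key u w p (Or.inl rfl)

/-- Triangle-free graphs inside the components with triangles of a paw-free graph are
bipartite. -/
theorem bip {W : Type u} {X : Type v} {R : SimpleGraph W} (hR : IsEmpty (paw ↪g R))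
    {B : SimpleGraph X} (hB : ∀ x y z, B.Adj x y → B.Adj x z → B.Adj y z → False) (β : B ↪g R)
    (hT : ∀ b, InTri R (β b)) : ∃ c : X → Fin 2, ∀ b b', B.Adj b b' → c b ≠ c b' := by
  classical
  by_cases hX : Nonempty X
  · let rep : X → X := fun b =>
      Classical.epsilon (fun b' => R.connectedComponentMk (β b') = R.connectedComponentMk (β b))
    have hrep : ∀ b, R.connectedComponentMk (β (rep b)) = R.connectedComponentMk (β b) := fun b =>
      Classical.epsilon_spec
        (p := fun b' => R.connectedComponentMk (β b') = R.connectedComponentMk (β b)) ⟨b, rfl⟩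
    refine ⟨fun b => if R.Adj (β (rep b)) (β b) then 1 else 0, ?_⟩
    intro b b' hbb hc
    have hadj : R.Adj (β b) (β b') := β.map_adj_iff.2 hbb
    have hcomp : R.connectedComponentMk (β b) = R.connectedComponentMk (β b') :=
      SimpleGraph.ConnectedComponent.sound hadj.reachable
    have hreps : rep b' = rep b := by
      change Classical.epsilon _ = Classical.epsilon _
      rw [hcomp]
    have hreach : R.Reachable (β b) (β (rep b)) :=
      SimpleGraph.ConnectedComponent.exact (hrep b).symm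
    simp only [hreps] at hc
    by_cases h1 : R.Adj (β (rep b)) (β b) <;> by_cases h2 : R.Adj (β (rep b)) (β b')
    · exact hB (rep b) b b' (β.map_adj_iff.1 h1) (β.map_adj_iff.1 h2) hbb
    · simp [h1, h2] at hc
    · simp [h1, h2] at hc
    · obtain ⟨x, hx1, hx2⟩ := edge_tri hR (hT b) hadj
      rcases dominate hR hadj hx1 hx2 hreach with h | h | h | h
      · exact h2 (by rw [h]; exact hadj)
      · exact h1 (by rw [h]; exact hadj.symm)
      · exact h1 h.symm
      · exact h2 h.symm
  · exact ⟨fun b => (hX ⟨b⟩).elim, fun b => (hX ⟨b⟩).elim⟩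

/-- A paw-free colouring with `l` colours gives a `G`-free colouring with about `l / 2` colours. -/
theorem merge {W : Type u} {V : Type v} {H : SimpleGraph W} {G : SimpleGraph V} {l : ℕ}
    (p : W → Fin l) (hp : IsFreeColoring H paw p) (κ : (⊤ : SimpleGraph (Fin 9)) ↪g G)
    {X : Type} {B : SimpleGraph X}
    (hB3 : ∀ x y z, B.Adj x y → B.Adj x z → B.Adj y z → False)
    (hB8 : ∀ c : X → Fin 8, ∃ b b', B.Adj b b' ∧ c b = c b') (β0 : B ↪g G) :
    ∃ c : W → Fin (2 * ((l + 3) / 4)), IsFreeColoring H G c := by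
  classical
  let T : W → Prop := fun w => ∃ x y, p x = p w ∧ p y = p w ∧ H.Adj w x ∧ H.Adj w y ∧ H.Adj x y
  let t : W → ℕ := fun w => if T w then 1 else 0
  have ht : ∀ w, t w ≤ 1 := by
    intro w
    by_cases h : T w <;> simp [t, h]
  refine ⟨fun w => ⟨2 * ((p w).1 / 4) + t w, ?_⟩, ?_⟩
  · have h1 := (p w).2
    have h2 := ht w
    omega
  rw [isFreeColoring_iff]
  intro i f hf
  have hf' : ∀ a, 2 * ((p (f a)).1 / 4) + t (f a) = i.1 := fun a => congrArg Fin.val (hf a)
  have hdiv : ∀ a b, (p (f a)).1 / 4 = (p (f b)).1 / 4 := by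
    intro a b
    have h1 := hf' a
    have h2 := hf' b
    have h3 := ht (f a)
    have h4 := ht (f b)
    omega
  by_cases hi : i.1 % 2 = 0
  · -- no vertex lies in a triangle of its class
    have hnT : ∀ a, ¬ T (f a) := by
      intro a hT
      have h1 := hf' a
      have h2 : t (f a) = 1 := by simp [t, hT]
      omega
    obtain ⟨y, -, hy⟩ := Finset.exists_lt_card_fiber_of_mul_lt_card_of_maps_to
      (s := (Finset.univ : Finset (Fin 9))) (t := Finset.range 4)
      (f := fun j => (p (f (κ j))).1 % 4) (n := 2)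
      (fun j _ => Finset.mem_range.2 (Nat.mod_lt _ (by norm_num))) (by simp)
    obtain ⟨j1, j2, j3, h1, h2, h3, h12, h13, h23⟩ := Finset.two_lt_card_iff.1 hy
    rw [Finset.mem_filter] at h1 h2 h3
    have e : ∀ j j' : Fin 9, (p (f (κ j))).1 % 4 = y → (p (f (κ j'))).1 % 4 = y →
        p (f (κ j)) = p (f (κ j')) := by
      intro j j' hj hj'
      apply Fin.ext
      have := hdiv (κ j) (κ j')
      omega
    have hadj : ∀ j j' : Fin 9, j ≠ j' → H.Adj (f (κ j)) (f (κ j')) := fun j j' h =>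
      f.map_adj_iff.2 (κ.map_adj_iff.2 ((SimpleGraph.top_adj _ _).2 h))
    exact hnT (κ j1) ⟨f (κ j2), f (κ j3), e _ _ h2.2 h1.2, e _ _ h3.2 h1.2, hadj _ _ h12,
      hadj _ _ h13, hadj _ _ h23⟩
  · have hT : ∀ a, T (f a) := by
      intro a
      by_contra hT
      have h1 := hf' a
      have h2 : t (f a) = 0 := by simp [t, hT]
      omega
    -- the part of `B` in the class `q`
    have hq : ∀ q : Fin l, ∃ c : {b : X | p (f (β0 b)) = q} → Fin 2,
        ∀ b b', (B.induce {b : X | p (f (β0 b)) = q}).Adj b b' → c b ≠ c b' := by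
      intro q
      let β : B.induce {b : X | p (f (β0 b)) = q} ↪g H.induce {w | p w = q} :=
        ⟨⟨fun b => ⟨f (β0 b.1), b.2⟩, fun a b h =>
          Subtype.ext (β0.injective (f.injective (congrArg Subtype.val h)))⟩,
          fun {a b} => by
            change H.Adj (f (β0 a.1)) (f (β0 b.1)) ↔ B.Adj a.1 b.1
            rw [f.map_adj_iff, β0.map_adj_iff]⟩
      refine bip (hp q) (fun x y z h1 h2 h3 => hB3 x.1 y.1 z.1 h1 h2 h3) β ?_
      rintro ⟨b, hb⟩
      obtain ⟨x, y, hx, hy, h1, h2, h3⟩ := hT (β0 b)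
      exact ⟨⟨x, hx.trans hb⟩, ⟨y, hy.trans hb⟩, h1, h2, h3⟩
    choose cq hcq using hq
    obtain ⟨b, b', hbb, hc⟩ := hB8 (fun b => ⟨2 * ((p (f (β0 b))).1 % 4) +
      (cq (p (f (β0 b))) ⟨b, rfl⟩).1, by
        have h1 := (cq (p (f (β0 b))) ⟨b, rfl⟩).2
        omega⟩)
    have hc' : 2 * ((p (f (β0 b))).1 % 4) + (cq (p (f (β0 b))) ⟨b, rfl⟩).1 =
        2 * ((p (f (β0 b'))).1 % 4) + (cq (p (f (β0 b'))) ⟨b', rfl⟩).1 := congrArg Fin.val hc
    have h1 := (cq (p (f (β0 b))) ⟨b, rfl⟩).2
    have h2 := (cq (p (f (β0 b'))) ⟨b', rfl⟩).2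
    have h3 : p (f (β0 b')) = p (f (β0 b)) := by
      apply Fin.ext
      have := hdiv (β0 b) (β0 b')
      omega
    have h4 : ∀ q (h : p (f (β0 b')) = q),
        cq (p (f (β0 b'))) ⟨b', rfl⟩ = cq q ⟨b', h⟩ := by
      rintro _ rfl
      rfl
    refine hcq (p (f (β0 b))) ⟨b, rfl⟩ ⟨b', h3⟩ hbb ?_
    rw [← h4 _ h3]
    apply Fin.ext
    omega

theorem low {V : Type u} [Nonempty V] {U : Type v} {G : SimpleGraph V} {F : SimpleGraph U}
    (hFG : Nonempty (F ↪g G)) {k : ℕ} {c : V → Fin k} (hc : IsFreeColoring G F c) : 2 ≤ k := by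
  by_contra hk
  obtain ⟨x⟩ := ‹Nonempty V›
  obtain ⟨f⟩ := hFG
  refine (isFreeColoring_iff _ _ _).1 hc (c x) f fun a => ?_
  have h1 := (c x).2
  have h2 := (c (f a)).2
  apply Fin.ext
  omega

/-- The paw and a connected graph `G` containing it with `χ(G : -paw) = 2` which are `2`-related
but not `l`-related for any `l ≥ 3`. -/
theorem paw_main : ∃ (V : Type) (_ : Finite V) (G : SimpleGraph V), G.Connected ∧
    Nonempty (paw ↪g G) ∧ (∃ c : V → Fin 2, IsFreeColoring G paw c) ∧
    (∃ c : Fin 4 → Fin 2, IsFreeColoring paw G c) ∧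
    (∃ (W : Type) (_ : Finite W) (H : SimpleGraph W),
      FreeChromaticNumberEq H paw 2 ∧ FreeChromaticNumberEq H G 2) ∧
    ∀ l : ℕ, 3 ≤ l → ¬ ∃ (W : Type) (_ : Finite W) (H : SimpleGraph W),
      FreeChromaticNumberEq H paw l ∧ FreeChromaticNumberEq H G l := by
  classical
  have hK3 : NoCut (⊤ : SimpleGraph (Fin 3)) :=
    noCut_of_complete _ fun a b hab => (SimpleGraph.top_adj a b).2 hab
  have hK2 : IsEmpty ((⊤ : SimpleGraph (Fin 3)) ↪g (⊤ : SimpleGraph (Fin 2))) := by
    refine ⟨fun f => ?_⟩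
    have := Fintype.card_le_of_injective f f.injective
    simp at this
  obtain ⟨X, _, B, hB, hBc⟩ := folkman hK3 (⊤ : SimpleGraph (Fin 2)) hK2 (r := 8) (by norm_num)
  have hB3 : ∀ x y z, B.Adj x y → B.Adj x z → B.Adj y z → False := by
    intro x y z hxy hxz hyz
    have n1 := hxy.ne
    have n2 := hxz.ne
    have n3 := hyz.ne
    have s1 := hxy.symm
    have s2 := hxz.symm
    have s3 := hyz.symm
    refine hB.false ⟨⟨![x, y, z], ?_⟩, ?_⟩
    · intro a b hab
      fin_cases a <;> fin_cases b <;> simp_all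
    · intro a b
      have key : ∀ a b : Fin 3, B.Adj (![x, y, z] a) (![x, y, z] b) ↔ a ≠ b := by
        intro a b
        fin_cases a <;> fin_cases b <;> simp [hxy, hxz, hyz, s1, s2, s3]
      exact (key a b).trans (SimpleGraph.top_adj a b).symm
  have hB8 : ∀ c : X → Fin 8, ∃ b b', B.Adj b b' ∧ c b = c b' := by
    intro c
    obtain ⟨i, e, he⟩ := hBc c
    exact ⟨e 0, e 1, e.map_adj_iff.2 ((SimpleGraph.top_adj _ _).2 (by decide)),
      (he 0).trans (he 1).symm⟩
  obtain ⟨b0, -, -, -⟩ := hB8 (fun _ => 0)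
  let K := host (⊤ : SimpleGraph (Fin 9)) B False
  let G := host K (⊥ : SimpleGraph Unit) True
  have hpaw : Nonempty (paw ↪g G) := by
    rw [← not_isEmpty_iff]
    intro hE
    have h := paw_step hE (a := Sum.inr ()) (b := Sum.inl (Sum.inl 0)) (c := Sum.inl (Sum.inl 1))
      (d := Sum.inl (Sum.inr b0)) trivial trivial
      (show (⊤ : SimpleGraph (Fin 9)).Adj 0 1 from (SimpleGraph.top_adj _ _).2 (by decide)) trivial
    rcases h with h | h | h | h
    · simp at h
    · simp at h
    · exact h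
    · exact h
  have hcol : IsFreeColoring G paw (Sum.elim (fun _ => (0 : Fin 2)) (fun _ => 1)) := by
    rw [isFreeColoring_iff]
    intro i f hf
    by_cases h0 : ∃ a, ∃ u, f a = Sum.inr u
    · obtain ⟨a, u, ha⟩ := h0
      have hi : (1 : Fin 2) = i := by
        have h := hf a
        rwa [ha] at h
      have hall : ∀ b, f b = Sum.inr () := by
        intro b
        rcases hb : f b with k | u'
        · have h := hf b
          rw [hb, ← hi] at h
          have h' : (0 : Fin 2) = 1 := h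
          exact absurd h' (by decide)
        · rfl
      have h01 := f.injective ((hall 0).trans (hall 1).symm)
      exact absurd h01 (by decide)
    · have hall : ∀ b, ∃ k, f b = Sum.inl k := by
        intro b
        rcases hb : f b with k | u'
        · exact ⟨k, rfl⟩
        · exact (h0 ⟨b, u', hb⟩).elim
      choose g hg using hall
      have hadj : ∀ a b, K.Adj (g a) (g b) ↔ paw.Adj a b := by
        intro a b
        rw [← f.map_adj_iff, hg a, hg b]
        exact Iff.rfl
      have h01 : K.Adj (g 0) (g 1) := (hadj 0 1).2 ((paw_adj 0 1).2 (by decide))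
      have h02 : K.Adj (g 0) (g 2) := (hadj 0 2).2 ((paw_adj 0 2).2 (by decide))
      have h12 : K.Adj (g 1) (g 2) := (hadj 1 2).2 ((paw_adj 1 2).2 (by decide))
      have h03 : K.Adj (g 0) (g 3) := (hadj 0 3).2 ((paw_adj 0 3).2 (by decide))
      have h13 : ¬ K.Adj (g 1) (g 3) := fun h => absurd ((paw_adj 1 3).1 ((hadj 1 3).1 h))
        (by decide)
      have hne : g 1 ≠ g 3 := by
        intro h
        have h' : f 1 = f 3 := by rw [hg 1, hg 3, h]
        exact absurd (f.injective h') (by decide)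
      rcases e0 : g 0 with x0 | y0
      · rcases e1 : g 1 with x1 | y1
        · rcases e3 : g 3 with x3 | y3
          · apply h13
            rw [e1, e3]
            rw [e1, e3] at hne
            exact (SimpleGraph.top_adj _ _).2 fun h => hne (by rw [h])
          · rw [e0, e3] at h03
            exact h03
        · rw [e0, e1] at h01
          exact h01
      · rcases e1 : g 1 with x1 | y1
        · rw [e0, e1] at h01
          exact h01
        · rcases e2 : g 2 with x2 | y2
          · rw [e0, e2] at h02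
            exact h02
          · rw [e0, e1] at h01
            rw [e0, e2] at h02
            rw [e1, e2] at h12
            exact hB3 y0 y1 y2 h01 h02 h12
  have hne : Nonempty ((Fin 9 ⊕ X) ⊕ Unit) := ⟨Sum.inr ()⟩
  refine ⟨(Fin 9 ⊕ X) ⊕ Unit, inferInstance, G, ?_, hpaw, ⟨_, hcol⟩, ?_, ?_, ?_⟩
  · have hhub : ∀ a, G.Reachable a (Sum.inr ()) := by
      rintro (k | u)
      · exact SimpleGraph.Adj.reachable (show G.Adj (Sum.inl k) (Sum.inr ()) from trivial)
      · exact SimpleGraph.Reachable.refl _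
    exact ⟨fun a b => (hhub a).trans (hhub b).symm⟩
  · refine ⟨fun _ => 0, (isFreeColoring_iff _ _ _).2 fun i f _ => ?_⟩
    have h := Fintype.card_le_of_injective (fun j : Fin 9 => f (Sum.inl (Sum.inl j)))
      (fun a b hab => by
        have := f.injective hab
        simpa using this)
    simp at h
  · exact ⟨_, inferInstance, G, ⟨⟨_, hcol⟩, fun k ⟨c, hc⟩ => low hpaw hc⟩,
      ⟨⟨_, free_mono hpaw.some hcol⟩, fun k ⟨c, hc⟩ => low ⟨SimpleGraph.Embedding.refl⟩ hc⟩⟩
  · rintro l hl ⟨W, _, H, ⟨⟨p, hp⟩, -⟩, ⟨-, hlow⟩⟩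
    have κ : (⊤ : SimpleGraph (Fin 9)) ↪g G :=
      ⟨⟨fun j => Sum.inl (Sum.inl j), fun a b h => by simpa using h⟩, Iff.rfl⟩
    have β0 : B ↪g G := ⟨⟨fun j => Sum.inl (Sum.inr j), fun a b h => by simpa using h⟩, Iff.rfl⟩
    obtain ⟨c, hc⟩ := merge p hp κ hB3 hB8 β0
    have := hlow ⟨c, hc⟩
    omega

end Pool.Agent.Y12.CR
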